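import Pool.Agent.Helper49.MC.Transfer

/-!
Minimal complements in finite abelian groups: `T(G) = O(√|G| (log |G|)³)`.
-/

namespace Pool.Agent.Results.MP_d8224a_co.UpperHalf

open Pointwise

/-- `C` is a minimal complement in `G`: for some `W ⊆ G` one has `W + C = G`, and `W + C' ≠ G` for
every proper subset `C'` of `C`. -/
def IsMinimalComplement {G : Type} [AddCommGroup G] (C : Set G) : Prop :=
  ∃ W : Set G, W + C = Set.univ ∧ ∀ C' : Set G, C' ⊂ C → W + C' ≠ Set.univ

/-- The largest `t ≤ |G|` such that every nonempty subset of `G` with at most `t` elements is a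
minimal complement in `G`. -/
noncomputable def T (G : Type) [AddCommGroup G] [Fintype G] : ℕ :=
  sSup {t : ℕ | t ≤ Fintype.card G ∧
    ∀ C : Set G, C.Nonempty → C.ncard ≤ t → IsMinimalComplement C}

open Pool.Agent.Helper49.MC in
lemma exists_bad (G : Type) [AddCommGroup G] [Fintype G] (hn : 5 ≤ Fintype.card G)
    (hN : 36 * (Nat.sqrt (Fintype.card G) + 1) * Nat.clog 2 (Fintype.card G) ^ 3
      < Fintype.card G) :
    ∃ C : Set G, C.Nonempty ∧
      C.ncard ≤ 36 * (Nat.sqrt (Fintype.card G) + 1) * Nat.clog 2 (Fintype.card G) ^ 3 ∧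
      ¬ IsMinimalComplement C := by
  classical
  set n := Fintype.card G with hn'
  set m := Nat.clog 2 n with hm
  set N := 36 * (Nat.sqrt n + 1) * m ^ 3 with hNdef
  have hnm : n ≤ 2 ^ m := Nat.le_pow_clog (by norm_num) n
  have hm3 : 3 ≤ m := by
    by_contra hcon
    push Not at hcon
    have : 2 ^ m ≤ 2 ^ 2 := Nat.pow_le_pow_right (by norm_num) (by omega)
    omega
  have hN1 : 1 ≤ N := by
    have : 0 < N := by positivity
    exact this
  obtain ⟨H, x, l, hl1, hlN, hNl, hx⟩ := exists_structure (G := G) N hN1 hN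
  have hcH : Nat.card H = Fintype.card H := Nat.card_eq_fintype_card
  rw [hcH] at hlN hNl
  set L := l * Fintype.card H with hL
  obtain ⟨C, hCs, hCc, hCg⟩ := exists_good (H := H) m l hm3 (by rw [← hL]; omega)
  rw [← hL] at hCc
  have hLpos : 1 ≤ L := by omega
  refine ⟨((C.image (phi H x) : Finset G) : Set G), ?_, ?_, ?_⟩
  · rw [Finset.coe_nonempty]
    apply Finset.Nonempty.image
    rw [← Finset.card_pos]
    omega
  · rw [Set.ncard_coe_finset]
    calc (C.image (phi H x)).card ≤ C.card := Finset.card_image_le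
      _ ≤ (slab H 0 l).card := Finset.card_le_card hCs
      _ = L := by rw [card_slab]; simp [hL]
      _ ≤ N := hlN
  · intro hmc
    have htr := transfer H x (l := l) (s := 2 * m) (u := 32 * m ^ 5) (by omega) hx C hCs hCg hmc
    rw [← hL, ← hn'] at htr
    -- `L² ≤ 2 L |C| ≤ 2 n (4m+1) 32 m⁵`
    have h1 : L * L ≤ 2 * (n * ((2 * (2 * m) + 1) * (32 * m ^ 5))) := by
      calc L * L ≤ L * (2 * C.card) := Nat.mul_le_mul_left _ hCc
        _ = 2 * (L * C.card) := by ring
        _ ≤ _ := Nat.mul_le_mul_left _ htr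
    have h2 : 2 * (n * ((2 * (2 * m) + 1) * (32 * m ^ 5))) ≤ 320 * (n * m ^ 6) := by
      have : (2 * (2 * m) + 1) ≤ 5 * m := by omega
      calc 2 * (n * ((2 * (2 * m) + 1) * (32 * m ^ 5)))
          ≤ 2 * (n * ((5 * m) * (32 * m ^ 5))) := by
            apply Nat.mul_le_mul_left
            apply Nat.mul_le_mul_left
            exact Nat.mul_le_mul_right _ this
        _ = 320 * (n * m ^ 6) := by ring
    have h3 : n < (Nat.sqrt n + 1) * (Nat.sqrt n + 1) := Nat.lt_succ_sqrt n
    have h4 : 1296 * (n * m ^ 6) ≤ N * N := by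
      calc 1296 * (n * m ^ 6) ≤ 1296 * (((Nat.sqrt n + 1) * (Nat.sqrt n + 1)) * m ^ 6) := by
            apply Nat.mul_le_mul_left
            exact Nat.mul_le_mul_right _ h3.le
        _ = N * N := by rw [hNdef]; ring
    have h5 : N * N < (2 * L) * (2 * L) := Nat.mul_lt_mul_of_lt_of_lt hNl hNl
    have h6 : (2 * L) * (2 * L) = 4 * (L * L) := by ring
    have h7 : 0 < n * m ^ 6 := by positivity
    omega

/-- There is a constant `K` such that `T(G) ≤ K √|G| (log |G|)³` for every finite abelian group `G`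
with at least two elements. -/
theorem result : ∃ K : ℝ, ∀ (G : Type) [AddCommGroup G] [Fintype G], 2 ≤ Fintype.card G →
    (T G : ℝ) ≤ K * Real.sqrt (Fintype.card G) * (Real.log (Fintype.card G)) ^ 3 := by
  refine ⟨1944, ?_⟩
  intro G _ _ hn2
  set n := Fintype.card G with hn
  set m := Nat.clog 2 n with hm
  set N := 36 * (Nat.sqrt n + 1) * m ^ 3 with hN
  have hn2' : (2 : ℝ) ≤ n := by exact_mod_cast hn2
  have hlog2 : (0.6931 : ℝ) < Real.log 2 := by
    have := Real.log_two_gt_d9
    linarith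
  have hlogn : Real.log 2 ≤ Real.log n := Real.log_le_log (by norm_num) hn2'
  have hsq1 : (1 : ℝ) ≤ Real.sqrt n := by
    rw [Real.one_le_sqrt]
    linarith
  have hmlog : (m : ℝ) ≤ 3 * Real.log n := by
    have hm1 : 1 ≤ m := by
      rw [hm]
      exact Nat.clog_pos (by norm_num) hn2
    have h1 : 2 ^ (m - 1) < n := by
      have := Nat.pow_pred_clog_lt_self (b := 2) (by norm_num) (x := n) (by omega)
      simpa [hm] using this
    have h2 : ((2 : ℝ)) ^ (m - 1) < n := by exact_mod_cast h1
    have h3 : ((m : ℝ) - 1) * Real.log 2 < Real.log n := by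
      have h4 := Real.log_lt_log (by positivity) h2
      rw [Real.log_pow] at h4
      have h5 : ((m - 1 : ℕ) : ℝ) = (m : ℝ) - 1 := by push_cast [hm1]; ring
      rw [h5] at h4
      exact h4
    nlinarith
  have hsqrt : (Nat.sqrt n : ℝ) ≤ Real.sqrt n := Real.nat_sqrt_le_real_sqrt
  have hNreal : (N : ℝ) ≤ 1944 * Real.sqrt n * (Real.log n) ^ 3 := by
    have hlog0 : 0 < Real.log n := by linarith
    have h1 : (N : ℝ) = 36 * ((Nat.sqrt n : ℝ) + 1) * (m : ℝ) ^ 3 := by
      rw [hN]; push_cast; ring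
    rw [h1]
    have h2 : (m : ℝ) ^ 3 ≤ (3 * Real.log n) ^ 3 := pow_le_pow_left₀ (by positivity) hmlog 3
    have h3 : 36 * ((Nat.sqrt n : ℝ) + 1) ≤ 72 * Real.sqrt n := by linarith
    calc 36 * ((Nat.sqrt n : ℝ) + 1) * (m : ℝ) ^ 3
        ≤ (72 * Real.sqrt n) * (3 * Real.log n) ^ 3 :=
          mul_le_mul h3 h2 (by positivity) (by positivity)
      _ = 1944 * Real.sqrt n * (Real.log n) ^ 3 := by ring
  have hne : {t : ℕ | t ≤ Fintype.card G ∧
      ∀ C : Set G, C.Nonempty → C.ncard ≤ t → IsMinimalComplement C}.Nonempty := by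
    refine ⟨0, ?_, ?_⟩
    · omega
    · intro C hC h0
      exfalso
      have : 0 < C.ncard := (Set.ncard_pos (Set.toFinite C)).mpr hC
      omega
  by_cases hsmall : n < 5
  · have hT : T G ≤ n := csSup_le hne (fun t ht => ht.1)
    have hT4 : (T G : ℝ) ≤ 4 := by
      have : T G ≤ 4 := by omega
      exact_mod_cast this
    refine hT4.trans ?_
    have h1 : (0.6931 : ℝ) ^ 3 ≤ (Real.log n) ^ 3 :=
      pow_le_pow_left₀ (by norm_num) (by linarith) 3
    have h2 : (0.3 : ℝ) ≤ (Real.log n) ^ 3 := le_trans (by norm_num) h1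
    calc (4 : ℝ) ≤ 1944 * 1 * 0.3 := by norm_num
      _ ≤ 1944 * Real.sqrt n * (Real.log n) ^ 3 :=
          mul_le_mul (by linarith) h2 (by norm_num) (by positivity)
  · push Not at hsmall
    have hT : T G ≤ N := by
      by_cases hNn : N < n
      · obtain ⟨C, hC1, hC2, hC3⟩ := exists_bad G (by rw [← hn]; exact hsmall)
          (by rw [← hn, ← hm, ← hN]; exact hNn)
        rw [← hn, ← hm, ← hN] at hC2
        apply csSup_le hne
        rintro t ⟨_, ht⟩
        by_contra hcon
        push Not at hcon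
        exact hC3 (ht C hC1 (by omega))
      · push Not at hNn
        exact (csSup_le hne (fun t ht => ht.1)).trans hNn
    have : (T G : ℝ) ≤ N := by exact_mod_cast hT
    exact this.trans hNreal

end Pool.Agent.Results.MP_d8224a_co.UpperHalf
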