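import Pool.Agent.Helper49.MC.Indep

/-!
Probability bounds for a fixed finite set `V` of translates.
-/

namespace Pool.Agent.Helper49.MC

open Finset

variable {A : Type*} [DecidableEq A]

open Classical in
/-- probability of an event -/
noncomputable def Pr (J : Finset A) (p : Finset A → Prop) : ℝ :=
  Ex J (fun C => if p C then (1 : ℝ) else 0)

lemma Pr_mono (J : Finset A) {p q : Finset A → Prop} (h : ∀ C ∈ J.powerset, p C → q C) :
    Pr J p ≤ Pr J q := by
  classical
  apply Ex_mono
  intro C hC
  by_cases hp : p C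
  · simp [hp, h C hC hp]
  · by_cases hq : q C <;> simp [hp, hq]

lemma Pr_exists_le {ι : Type*} (J : Finset A) (s : Finset ι) (p : ι → Finset A → Prop) :
    Pr J (fun C => ∃ i ∈ s, p i C) ≤ ∑ i ∈ s, Pr J (p i) := by
  classical
  unfold Pr
  rw [← Ex_sum]
  apply Ex_mono
  intro C _
  by_cases h : ∃ i ∈ s, p i C
  · rw [if_pos h]
    obtain ⟨i, hi, hp⟩ := h
    have h0 : ∀ j ∈ s, (0 : ℝ) ≤ if p j C then (1 : ℝ) else 0 := by
      intro j _; split_ifs <;> norm_num
    calc (1 : ℝ) = if p i C then (1 : ℝ) else 0 := by rw [if_pos hp]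
      _ ≤ ∑ j ∈ s, (if p j C then (1 : ℝ) else 0) := Finset.single_le_sum h0 hi
  · rw [if_neg h]
    apply Finset.sum_nonneg
    intro j _; split_ifs <;> norm_num

lemma Pr_or_le (J : Finset A) (p q : Finset A → Prop) :
    Pr J (fun C => p C ∨ q C) ≤ Pr J p + Pr J q := by
  classical
  unfold Pr
  rw [← Ex_add]
  apply Ex_mono
  intro C _
  by_cases hp : p C <;> by_cases hq : q C <;> simp [hp, hq]

lemma exists_of_Pr_lt_one (J : Finset A) (p : Finset A → Prop) (h : Pr J p < 1) :
    ∃ C ⊆ J, ¬ p C := by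
  classical
  by_contra hcon
  push Not at hcon
  have h1 : Pr J p = 1 := by
    unfold Pr
    refine Eq.trans ?_ (Ex_const J 1)
    apply Ex_congr
    intro C hC
    rw [Finset.mem_powerset] at hC
    rw [if_pos (hcon C hC)]
  linarith

lemma Pr_half (J : Finset A) : Pr J (fun C => 2 * C.card < J.card) ≤ 1 / 2 := by
  classical
  have h1 : Ex J (fun C => if 2 * C.card < J.card then (1 : ℝ) else 0)
      = Ex J (fun C => if 2 * (J \ C).card < J.card then (1 : ℝ) else 0) := by
    unfold Ex
    congr 1
    refine Finset.sum_nbij' (fun C => J \ C) (fun C => J \ C) ?_ ?_ ?_ ?_ ?_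
    · intro C _; simp
    · intro C _; simp
    · intro C hC
      rw [Finset.mem_powerset] at hC
      exact Finset.sdiff_sdiff_eq_self hC
    · intro C hC
      rw [Finset.mem_powerset] at hC
      exact Finset.sdiff_sdiff_eq_self hC
    · intro C hC
      rw [Finset.mem_powerset] at hC
      rw [Finset.sdiff_sdiff_eq_self hC]
  have h2 : Ex J (fun C => (if 2 * C.card < J.card then (1 : ℝ) else 0)
      + (if 2 * (J \ C).card < J.card then (1 : ℝ) else 0)) ≤ 1 := by
    calc _ ≤ Ex J (fun _ => (1 : ℝ)) := by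
          apply Ex_mono
          intro C hC
          rw [Finset.mem_powerset] at hC
          have h3 := Finset.card_sdiff_add_card_eq_card hC
          by_cases ha : 2 * C.card < J.card
          · rw [if_pos ha, if_neg (by omega)]; norm_num
          · rw [if_neg ha]
            split_ifs <;> norm_num
      _ = 1 := Ex_const J 1
  rw [Ex_add, ← h1] at h2
  have h4 : Pr J (fun C => 2 * C.card < J.card)
      = Ex J (fun C => if 2 * C.card < J.card then (1 : ℝ) else 0) := by
    unfold Pr
    apply Ex_congr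
    intro C _
    by_cases h : 2 * C.card < J.card
    · rw [if_pos h, if_pos h]
    · rw [if_neg h, if_neg h]
  rw [h4]
  linarith

/-- Markov type bound -/
lemma Pr_le_of_prod (J : Finset A) (p : Finset A → Prop) (W : Finset A → ℝ) (c : ℝ) (hc : 0 < c)
    (hW : ∀ C ∈ J.powerset, 0 ≤ W C) (h : ∀ C ∈ J.powerset, p C → c ≤ W C) :
    Pr J p ≤ Ex J W / c := by
  classical
  rw [le_div_iff₀ hc]
  unfold Pr
  rw [mul_comm, ← Ex_mul_left]
  apply Ex_mono
  intro C hC
  by_cases hp : p C
  · rw [if_pos hp, mul_one]; exact h C hC hp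
  · rw [if_neg hp, mul_zero]; exact hW C hC

/-- all blocks hit, at least `t` of them exactly once: exponentially unlikely -/
lemma class1 {ι : Type*} [DecidableEq ι] (J : Finset A) (F : Finset ι) (B : ι → Finset A) (r t : ℕ)
    (hr : 1 ≤ r) (hBJ : ∀ i ∈ F, B i ⊆ J) (hBr : ∀ i ∈ F, (B i).card = r)
    (hB : ∀ i ∈ F, ∀ j ∈ F, i ≠ j → Disjoint (B i) (B j)) :
    Pr J (fun C => (∀ i ∈ F, (C ∩ B i).card ≠ 0) ∧ t ≤ (F.filter (fun i => (C ∩ B i).card = 1)).card)
      ≤ 1 / (1 + 1 / (r : ℝ)) ^ t := by
  classical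
  have hr0 : (0 : ℝ) < r := by exact_mod_cast hr
  set w : ι → Finset A → ℝ := fun i C => (1 - (if (C ∩ B i).card = 0 then (1 : ℝ) else 0))
    + (1 / (r : ℝ)) * (if (C ∩ B i).card = 1 then (1 : ℝ) else 0) with hw
  have hw0 : ∀ i C, 0 ≤ w i C := by
    intro i C
    simp only [hw]
    have : (0 : ℝ) ≤ 1 / r := by positivity
    split_ifs <;> nlinarith
  have hE : ∀ i ∈ F, Ex J (w i) = 1 := by
    intro i hi
    simp only [hw]
    rw [Ex_add, Ex_sub, Ex_const, Ex_mul_left, Ex_zero J (B i) (hBJ i hi), Ex_one J (B i) (hBJ i hi),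
      hBr i hi]
    field_simp
    ring
  have hprod : Ex J (fun C => ∏ i ∈ F, w i C) = 1 := by
    rw [Ex_prod J F B w]
    · exact Finset.prod_eq_one hE
    · intro i _ C
      simp only [hw]
      rw [Finset.inter_assoc, Finset.inter_self]
    · exact hB
  have hgoal : Pr J (fun C => (∀ i ∈ F, (C ∩ B i).card ≠ 0) ∧
      t ≤ (F.filter (fun i => (C ∩ B i).card = 1)).card)
      ≤ Ex J (fun C => ∏ i ∈ F, w i C) / (1 + 1 / (r : ℝ)) ^ t := by
   apply Pr_le_of_prod
   · positivity
   · intro C _
     exact Finset.prod_nonneg fun i _ => hw0 i C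
   · rintro C _ ⟨h1, h2⟩
     rw [← Finset.prod_filter_mul_prod_filter_not F (fun i => (C ∩ B i).card = 1)]
     have e1 : ∏ i ∈ F.filter (fun i => (C ∩ B i).card = 1), w i C
         = (1 + 1 / (r : ℝ)) ^ (F.filter (fun i => (C ∩ B i).card = 1)).card := by
       rw [← Finset.prod_const]
       refine Finset.prod_congr rfl fun i hi => ?_
       rw [Finset.mem_filter] at hi
       simp only [hw]
       rw [if_neg (by omega), if_pos hi.2]
       ring
     have e2 : ∏ i ∈ F.filter (fun i => ¬ (C ∩ B i).card = 1), w i C = 1 := by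
       apply Finset.prod_eq_one
       intro i hi
       rw [Finset.mem_filter] at hi
       simp only [hw]
       rw [if_neg (h1 i hi.1), if_neg hi.2]
       ring
     rw [e1, e2, mul_one]
     apply pow_le_pow_right₀ _ h2
     have : (0 : ℝ) ≤ 1 / r := by positivity
     linarith
  rwa [hprod] at hgoal

/-- at least `t` blocks hit at most once -/
lemma class2 {ι : Type*} [DecidableEq ι] (J : Finset A) (F : Finset ι) (B : ι → Finset A) (r t : ℕ)
    (hBJ : ∀ i ∈ F, B i ⊆ J) (hBr : ∀ i ∈ F, (B i).card = r)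
    (hB : ∀ i ∈ F, ∀ j ∈ F, i ≠ j → Disjoint (B i) (B j)) :
    Pr J (fun C => t ≤ (F.filter (fun i => (C ∩ B i).card ≤ 1)).card)
      ≤ (1 + (1 + r) * (1 / 2 : ℝ) ^ r) ^ F.card / 2 ^ t := by
  classical
  set w : ι → Finset A → ℝ := fun i C => (1 + (if (C ∩ B i).card = 0 then (1 : ℝ) else 0))
    + (if (C ∩ B i).card = 1 then (1 : ℝ) else 0) with hw
  have hw0 : ∀ i C, 1 ≤ w i C := by
    intro i C
    simp only [hw]
    split_ifs <;> norm_num
  have hE : ∀ i ∈ F, Ex J (w i) = 1 + (1 + r) * (1 / 2 : ℝ) ^ r := by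
    intro i hi
    simp only [hw]
    rw [Ex_add, Ex_add, Ex_const, Ex_zero J (B i) (hBJ i hi), Ex_one J (B i) (hBJ i hi),
      hBr i hi]
    ring
  have hprod : Ex J (fun C => ∏ i ∈ F, w i C) = (1 + (1 + r) * (1 / 2 : ℝ) ^ r) ^ F.card := by
    rw [Ex_prod J F B w]
    · rw [Finset.prod_congr rfl hE, Finset.prod_const]
    · intro i _ C
      simp only [hw]
      rw [Finset.inter_assoc, Finset.inter_self]
    · exact hB
  rw [← hprod]
  apply Pr_le_of_prod
  · positivity
  · intro C _
    exact Finset.prod_nonneg fun i _ => le_trans zero_le_one (hw0 i C)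
  · intro C _ h2
    rw [← Finset.prod_filter_mul_prod_filter_not F (fun i => (C ∩ B i).card ≤ 1)]
    have e1 : (2 : ℝ) ^ t ≤ ∏ i ∈ F.filter (fun i => (C ∩ B i).card ≤ 1), w i C := by
      calc (2 : ℝ) ^ t ≤ 2 ^ (F.filter (fun i => (C ∩ B i).card ≤ 1)).card :=
            pow_le_pow_right₀ (by norm_num) h2
        _ = ∏ i ∈ F.filter (fun i => (C ∩ B i).card ≤ 1), (2 : ℝ) := (Finset.prod_const _).symm
        _ ≤ _ := by
            apply Finset.prod_le_prod
            · intro i _; norm_num
            · intro i hi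
              rw [Finset.mem_filter] at hi
              simp only [hw]
              rcases Nat.le_one_iff_eq_zero_or_eq_one.mp hi.2 with h | h
              · rw [if_pos h, if_neg (by omega)]; norm_num
              · rw [if_neg (by omega), if_pos h]; norm_num
    have e2 : (1 : ℝ) ≤ ∏ i ∈ F.filter (fun i => ¬ (C ∩ B i).card ≤ 1), w i C := by
      rw [show (1 : ℝ) = ∏ i ∈ F.filter (fun i => ¬ (C ∩ B i).card ≤ 1), (1 : ℝ) by simp]
      apply Finset.prod_le_prod
      · intro i _; norm_num
      · intro i _; exact hw0 i C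
    calc (2 : ℝ) ^ t = 2 ^ t * 1 := (mul_one _).symm
      _ ≤ _ := mul_le_mul e1 e2 zero_le_one (le_trans (by positivity) e1)

/-- greedy colouring -/
lemma coloring (P : Finset A) (R : A → A → Prop) (d : ℕ)
    (hsymm : ∀ x y, R x y → R y x)
    (h : ∀ x ∈ P, ∀ N : Finset A, (∀ y ∈ N, y ∈ P ∧ y ≠ x ∧ R x y) → N.card < d) :
    ∃ col : A → ℕ, (∀ x ∈ P, col x < d) ∧ ∀ x ∈ P, ∀ y ∈ P, x ≠ y → R x y → col x ≠ col y := by
  classical
  induction P using Finset.induction_on with
  | empty => exact ⟨fun _ => 0, by simp, by simp⟩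
  | insert a P ha ih =>
    obtain ⟨col, hc1, hc2⟩ := ih (fun x hx N hN => h x (Finset.mem_insert_of_mem hx) N
      (fun y hy => ⟨Finset.mem_insert_of_mem (hN y hy).1, (hN y hy).2⟩))
    set N := P.filter (fun y => R a y) with hN
    have hNd : N.card < d := by
      apply h a (Finset.mem_insert_self _ _) N
      intro y hy
      rw [hN, Finset.mem_filter] at hy
      exact ⟨Finset.mem_insert_of_mem hy.1, by rintro rfl; exact ha hy.1, hy.2⟩
    have hex : ∃ c ∈ Finset.range d, c ∉ N.image col := by
      by_contra hcon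
      push Not at hcon
      have := Finset.card_le_card (show Finset.range d ⊆ N.image col from hcon)
      rw [Finset.card_range] at this
      have h2 := Finset.card_image_le (s := N) (f := col)
      omega
    obtain ⟨c, hcd, hcN⟩ := hex
    rw [Finset.mem_range] at hcd
    refine ⟨Function.update col a c, ?_, ?_⟩
    · intro x hx
      rw [Finset.mem_insert] at hx
      rcases hx with rfl | hx
      · simp [hcd]
      · have : x ≠ a := by rintro rfl; exact ha hx
        rw [Function.update_of_ne this]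
        exact hc1 x hx
    · intro x hx y hy hxy hR
      rw [Finset.mem_insert] at hx hy
      rcases hx with rfl | hx
      · rcases hy with rfl | hy
        · exact absurd rfl hxy
        · rw [Function.update_self, Function.update_of_ne (Ne.symm hxy)]
          intro heq
          apply hcN
          rw [Finset.mem_image]
          exact ⟨y, by rw [hN, Finset.mem_filter]; exact ⟨hy, hR⟩, heq.symm⟩
      · rcases hy with rfl | hy
        · rw [Function.update_self, Function.update_of_ne hxy]
          intro heq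
          apply hcN
          rw [Finset.mem_image]
          exact ⟨x, by rw [hN, Finset.mem_filter]; exact ⟨hx, hsymm _ _ hR⟩, heq⟩
        · have h1 : x ≠ a := by rintro rfl; exact ha hx
          have h2 : y ≠ a := by rintro rfl; exact ha hy
          rw [Function.update_of_ne h1, Function.update_of_ne h2]
          exact hc2 x hx y hy hxy hR

end Pool.Agent.Helper49.MC
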