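import Pool.Agent.Helper49.MC.Exist

/-!
Deterministic part: few uniquely covered points in each block of length `l`.
-/

namespace Pool.Agent.Helper49.MC

open Finset

variable {H : Type*} [AddCommGroup H] [Fintype H] [DecidableEq H]

lemma Good.shift {l s u : ℕ} {C : Finset (ℤ × H)} (hG : Good H l s u C) (j : ℤ)
    (V : Finset (ℤ × H)) (hV : V ⊆ slab H (j - l + 1) (j + 1)) (hne : V.Nonempty)
    (hs : V.card ≤ s) (y : ℤ) (hy1 : 1 ≤ y) (hyl : y ≤ l) (hy : ∀ v ∈ V, j + y ≤ v.1 + l)
    (hcov : V.card = s ∨ ∀ g ∈ slab H j (j + y), ∃ v ∈ V, g - v ∈ C) :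
    ((slab H j (j + y)).filter (fun g => (C ∩ blk V g).card ≤ 1)).card < u := by
  set e : ℤ × H := (j, 0) with he
  have hinj : Function.Injective (fun v : ℤ × H => v - e) := fun a b h => by simpa using h
  set V' := V.image (fun v => v - e) with hV'
  have hcard : V'.card = V.card := Finset.card_image_of_injective _ hinj
  have hblk : ∀ g : ℤ × H, blk V' (g - e) = blk V g := by
    intro g
    unfold blk
    rw [hV', Finset.image_image]
    apply Finset.image_congr
    intro v _
    simp
  have h1 := hG V' ?_ (hne.image _) (by rw [hcard]; exact hs) y hy1 hyl ?_ ?_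
  · refine lt_of_le_of_lt ?_ h1
    apply Finset.card_le_card_of_injOn (fun g => g - e)
    · intro g hg
      have hg' : g ∈ (slab H j (j + y)).filter (fun g => (C ∩ blk V g).card ≤ 1) := hg
      rw [Finset.mem_filter, mem_slab] at hg'
      have : g - e ∈ (slab H 0 y).filter (fun g => (C ∩ blk V' g).card ≤ 1) := by
        rw [Finset.mem_filter, mem_slab, hblk]
        refine ⟨?_, hg'.2⟩
        simp only [he, Prod.fst_sub]
        omega
      exact this
    · intro a _ b _ h
      exact hinj h
  · intro v hv
    rw [hV', Finset.mem_image] at hv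
    obtain ⟨w, hw, rfl⟩ := hv
    have := hV hw
    rw [mem_slab] at this ⊢
    simp only [he, Prod.fst_sub]
    omega
  · intro v hv
    rw [hV', Finset.mem_image] at hv
    obtain ⟨w, hw, rfl⟩ := hv
    have := hy w hw
    simp only [he, Prod.fst_sub]
    omega
  · rcases hcov with h | h
    · left; rw [hcard]; exact h
    · right
      intro g hg
      rw [mem_slab] at hg
      obtain ⟨v, hv, hvC⟩ := h (g + e) (by
        rw [mem_slab]
        simp only [he, Prod.fst_add]
        omega)
      refine ⟨v - e, by rw [hV', Finset.mem_image]; exact ⟨v, hv, rfl⟩, ?_⟩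
      have : g - (v - e) = g + e - v := by abel
      rw [this]
      exact hvC

lemma exists_latest {B : Type*} [DecidableEq B] (P : Finset B) (f : B → ℤ) (s : ℕ) (hs : s ≤ P.card) :
    ∃ V ⊆ P, V.card = s ∧ ∀ w ∈ P, w ∉ V → ∀ v ∈ V, f w ≤ f v := by
  induction s with
  | zero => exact ⟨∅, by simp, by simp, by simp⟩
  | succ k ih =>
    obtain ⟨V, hVP, hVc, hV⟩ := ih (by omega)
    have hne : (P \ V).Nonempty := by
      rw [← Finset.card_pos, Finset.card_sdiff_of_subset hVP]
      omega
    obtain ⟨x, hx, hmax⟩ := Finset.exists_max_image (P \ V) f hne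
    rw [Finset.mem_sdiff] at hx
    refine ⟨insert x V, ?_, ?_, ?_⟩
    · intro a ha
      rw [Finset.mem_insert] at ha
      rcases ha with rfl | ha
      · exact hx.1
      · exact hVP ha
    · rw [Finset.card_insert_of_notMem hx.2, hVc]
    · intro w hw hwn v hv
      rw [Finset.mem_insert] at hwn hv
      push Not at hwn
      rcases hv with rfl | hv
      · exact hmax w (by rw [Finset.mem_sdiff]; exact ⟨hw, hwn.2⟩)
      · exact hV w hw hwn.2 v hv

/-- the largest `y ∈ [1, N]` with a property that holds at `1` -/
lemma exists_max_y (N : ℤ) (hN : 1 ≤ N) (Q : ℤ → Prop) (h1 : Q 1) :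
    ∃ y, 1 ≤ y ∧ y ≤ N ∧ Q y ∧ (y = N ∨ ¬ Q (y + 1)) := by
  classical
  set S := (Finset.Icc 1 N).filter Q with hS
  have hne : S.Nonempty := ⟨1, by rw [hS, Finset.mem_filter, Finset.mem_Icc]; exact ⟨⟨le_refl _, hN⟩, h1⟩⟩
  have hmem := Finset.max'_mem S hne
  set y := S.max' hne with hy
  have hmem' := hmem
  rw [hS, Finset.mem_filter, Finset.mem_Icc] at hmem'
  refine ⟨y, hmem'.1.1, hmem'.1.2, hmem'.2, ?_⟩
  by_contra hcon
  push Not at hcon
  have h2 : y + 1 ∈ S := by
    rw [hS, Finset.mem_filter, Finset.mem_Icc]
    refine ⟨⟨by omega, ?_⟩, hcon.2⟩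
    have := hcon.1
    omega
  have := Finset.le_max' S (y + 1) h2
  rw [← hy] at this
  omega

/-- uniquely covered points -/
def Uniq (W : Set (ℤ × H)) (C : Finset (ℤ × H)) (g : ℤ × H) : Prop :=
  ∃! w, w ∈ W ∧ g - w ∈ C

open Classical in
theorem block_bound {l s u : ℕ} {C : Finset (ℤ × H)} (hG : Good H l s u C) (hs : 1 ≤ s)
    (hC : C ⊆ slab H 0 l) (W : Set (ℤ × H)) (hW : ∀ g : ℤ × H, ∃ w ∈ W, g - w ∈ C) (b : ℤ) :
    ((slab H b (b + l)).filter (fun g => Uniq W C g)).card ≤ (2 * s + 1) * u := by
  set Wf : ℤ → ℤ → Finset (ℤ × H) := fun x y => (slab H x y).filter (fun w => w ∈ W) with hWf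
  have mem_Wf : ∀ x y w, w ∈ Wf x y ↔ (x ≤ w.1 ∧ w.1 < y) ∧ w ∈ W := by
    intro x y w
    simp only [hWf]
    rw [Finset.mem_filter, mem_slab]
  set a : ℤ → ℕ := fun j => (Wf (j - l + 1) b).card with ha
  set e : ℤ → ℕ := fun j => (Wf b (j + 1)).card with he
  set Φ : ℤ → ℕ := fun j => min s (a j) + (s - e j) with hΦ
  have ha_mono : ∀ j j', j ≤ j' → a j' ≤ a j := by
    intro j j' hjj
    apply Finset.card_le_card
    intro w hw
    rw [mem_Wf] at hw ⊢
    exact ⟨by omega, hw.2⟩
  have he_mono : ∀ j j', j ≤ j' → e j ≤ e j' := by
    intro j j' hjj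
    apply Finset.card_le_card
    intro w hw
    rw [mem_Wf] at hw ⊢
    exact ⟨by omega, hw.2⟩
  -- one step
  have step : ∀ j, b ≤ j → j < b + l → ∃ y : ℤ, 1 ≤ y ∧ y ≤ b + l - j ∧
      ((slab H j (j + y)).filter (fun g => Uniq W C g)).card ≤ u ∧
      (j + y = b + l ∨ Φ (j + y) + 1 ≤ Φ j) := by
    intro j hbj hjb
    set Vj := Wf (j - l + 1) (j + 1) with hVj
    have hVjW : ∀ v ∈ Vj, v ∈ W := fun v hv => ((mem_Wf _ _ _).mp hv).2
    have hVjne : Vj.Nonempty := by
      obtain ⟨w, hw, hwC⟩ := hW (j, 0)
      have := hC hwC
      rw [mem_slab] at this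
      simp only [Prod.fst_sub] at this
      refine ⟨w, ?_⟩
      rw [hVj, mem_Wf]
      exact ⟨by omega, hw⟩
    have hcount : ∀ V : Finset (ℤ × H), V ⊆ Vj → ∀ y : ℤ,
        ((slab H j (j + y)).filter (fun g => (C ∩ blk V g).card ≤ 1)).card < u →
        ((slab H j (j + y)).filter (fun g => Uniq W C g)).card ≤ u := by
      intro V hV y hlt
      refine le_trans (Finset.card_le_card ?_) hlt.le
      intro g hg
      rw [Finset.mem_filter] at hg ⊢
      refine ⟨hg.1, ?_⟩
      rw [card_inter_blk, Finset.card_le_one]
      intro v hv v' hv'
      rw [Finset.mem_filter] at hv hv'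
      obtain ⟨w, _, hw⟩ := hg.2
      rw [hw v ⟨hVjW v (hV hv.1), hv.2⟩, hw v' ⟨hVjW v' (hV hv'.1), hv'.2⟩]
    by_cases hcase : Vj.card < s
    · -- poor case
      obtain ⟨y, hy1, hyN, hQ, hmax⟩ := exists_max_y (b + l - j) (by omega)
        (fun y => (∀ v ∈ Vj, j + y ≤ v.1 + l) ∧ Wf (j + 1) (j + y) = ∅) (by
          constructor
          · intro v hv
            have := ((mem_Wf _ _ _).mp hv).1
            omega
          · rw [Finset.eq_empty_iff_forall_notMem]
            intro w hw
            rw [mem_Wf] at hw
            omega)
      refine ⟨y, hy1, hyN, ?_, ?_⟩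
      · apply hcount Vj (le_refl _)
        apply hG.shift j Vj
        · intro v hv
          rw [mem_slab]
          exact ((mem_Wf _ _ _).mp hv).1
        · exact hVjne
        · exact hcase.le
        · exact hy1
        · omega
        · exact hQ.1
        · right
          intro g hg
          rw [mem_slab] at hg
          obtain ⟨w, hw, hwC⟩ := hW g
          have h1 := hC hwC
          rw [mem_slab] at h1
          simp only [Prod.fst_sub] at h1
          refine ⟨w, ?_, hwC⟩
          rw [hVj, mem_Wf]
          refine ⟨⟨by omega, ?_⟩, hw⟩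
          by_contra hcon
          push Not at hcon
          have : w ∈ Wf (j + 1) (j + y) := by
            rw [mem_Wf]
            exact ⟨by omega, hw⟩
          rw [hQ.2] at this
          simp at this
      · rcases hmax with h | h
        · left; omega
        · by_cases hend : j + y = b + l
          · exact Or.inl hend
          right
          have haj : a j < s := lt_of_le_of_lt (Finset.card_le_card (by
            intro w hw
            rw [mem_Wf] at hw
            rw [hVj, mem_Wf]
            exact ⟨by omega, hw.2⟩)) hcase
          have hej : e j < s := lt_of_le_of_lt (Finset.card_le_card (by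
            intro w hw
            rw [mem_Wf] at hw
            rw [hVj, mem_Wf]
            exact ⟨by omega, hw.2⟩)) hcase
          have ham := ha_mono j (j + y) (by omega)
          have hem := he_mono j (j + y) (by omega)
          rw [not_and_or] at h
          rcases h with h | h
          · push Not at h
            obtain ⟨v, hv, hvl⟩ := h
            have hv1 := hQ.1 v hv
            have hv2 := (mem_Wf _ _ _).mp hv
            have hlt : a (j + y) + 1 ≤ a j := by
              apply Nat.succ_le_of_lt
              apply Finset.card_lt_card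
              rw [Finset.ssubset_iff_of_subset (by
                intro w hw
                rw [mem_Wf] at hw ⊢
                exact ⟨by omega, hw.2⟩)]
              refine ⟨v, ?_, ?_⟩
              · rw [mem_Wf]
                exact ⟨by omega, hv2.2⟩
              · rw [mem_Wf]
                rintro ⟨h3, _⟩
                omega
            simp only [hΦ]
            omega
          · have hne : (Wf (j + 1) (j + (y + 1))).Nonempty := Finset.nonempty_iff_ne_empty.mpr h
            obtain ⟨w, hw⟩ := hne
            rw [mem_Wf] at hw
            have hwj : w.1 = j + y := by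
              by_contra hcon
              have : w ∈ Wf (j + 1) (j + y) := by
                rw [mem_Wf]
                exact ⟨by omega, hw.2⟩
              rw [hQ.2] at this
              simp at this
            have hlt : e j + 1 ≤ e (j + y) := by
              apply Nat.succ_le_of_lt
              apply Finset.card_lt_card
              rw [Finset.ssubset_iff_of_subset (by
                intro w hw
                rw [mem_Wf] at hw ⊢
                exact ⟨by omega, hw.2⟩)]
              refine ⟨w, ?_, ?_⟩
              · rw [mem_Wf]
                exact ⟨by omega, hw.2⟩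
              · rw [mem_Wf]
                rintro ⟨h3, _⟩
                omega
            simp only [hΦ]
            omega
    · -- rich case
      push Not at hcase
      obtain ⟨V, hVVj, hVc, hlat⟩ := exists_latest Vj (fun w => w.1) s hcase
      obtain ⟨y, hy1, hyN, hQ, hmax⟩ := exists_max_y (b + l - j) (by omega)
        (fun y => (∀ v ∈ V, j + y ≤ v.1 + l)) (by
          intro v hv
          have := ((mem_Wf _ _ _).mp (hVVj hv)).1
          omega)
      refine ⟨y, hy1, hyN, ?_, ?_⟩
      · apply hcount V hVVj
        apply hG.shift j V
        · intro v hv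
          rw [mem_slab]
          exact ((mem_Wf _ _ _).mp (hVVj hv)).1
        · rw [← Finset.card_pos]; omega
        · exact hVc.le
        · exact hy1
        · omega
        · exact hQ
        · left; exact hVc
      · rcases hmax with h | h
        · left; omega
        · by_cases hend : j + y = b + l
          · exact Or.inl hend
          right
          push Not at h
          obtain ⟨v, hv, hvl⟩ := h
          have hv1 := hQ v hv
          have hv2 := (mem_Wf _ _ _).mp (hVVj hv)
          have hem := he_mono j (j + y) (by omega)
          have hsub : Wf (j + y - l + 1) b ⊆ V.erase v := by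
            intro w hw
            rw [mem_Wf] at hw
            rw [Finset.mem_erase]
            have hwVj : w ∈ Vj := by
              rw [hVj, mem_Wf]
              exact ⟨by omega, hw.2⟩
            refine ⟨?_, ?_⟩
            · rintro rfl
              omega
            · by_contra hcon
              have : w.1 ≤ v.1 := hlat w hwVj hcon v hv
              omega
          have h1 : a (j + y) ≤ s - 1 := by
            have := Finset.card_le_card hsub
            rw [Finset.card_erase_of_mem hv, hVc] at this
            exact this
          have hlt : a (j + y) + 1 ≤ a j := by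
            apply Nat.succ_le_of_lt
            apply Finset.card_lt_card
            rw [Finset.ssubset_iff_of_subset (by
              intro w hw
              rw [mem_Wf] at hw ⊢
              exact ⟨by omega, hw.2⟩)]
            refine ⟨v, ?_, ?_⟩
            · rw [mem_Wf]
              exact ⟨by omega, hv2.2⟩
            · rw [mem_Wf]
              rintro ⟨h3, _⟩
              omega
          simp only [hΦ]
          omega
  -- induction
  have main : ∀ k : ℕ, ∀ j, b ≤ j → j < b + l → Φ j ≤ k →
      ((slab H j (b + l)).filter (fun g => Uniq W C g)).card ≤ (k + 1) * u := by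
    intro k
    induction k with
    | zero =>
      intro j hbj hjb hk
      obtain ⟨y, hy1, hyN, hcnt, h⟩ := step j hbj hjb
      rcases h with h | h
      · rw [h] at hcnt
        simpa using hcnt
      · omega
    | succ k ih =>
      intro j hbj hjb hk
      obtain ⟨y, hy1, hyN, hcnt, h⟩ := step j hbj hjb
      rcases h with h | h
      · rw [h] at hcnt
        refine hcnt.trans ?_
        exact Nat.le_mul_of_pos_left _ (by omega)
      · by_cases hend : j + y = b + l
        · rw [hend] at hcnt
          refine hcnt.trans ?_
          exact Nat.le_mul_of_pos_left _ (by omega)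
        · have h2 := ih (j + y) (by omega) (by omega) (by omega)
          have hsplit : (slab H j (b + l)).filter (fun g => Uniq W C g)
              ⊆ ((slab H j (j + y)).filter (fun g => Uniq W C g)) ∪
                ((slab H (j + y) (b + l)).filter (fun g => Uniq W C g)) := by
            intro g hg
            rw [Finset.mem_filter, mem_slab] at hg
            rw [Finset.mem_union, Finset.mem_filter, Finset.mem_filter, mem_slab, mem_slab]
            by_cases hlt : g.1 < j + y
            · left; exact ⟨by omega, hg.2⟩
            · right; exact ⟨by omega, hg.2⟩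
          calc _ ≤ _ := Finset.card_le_card hsplit
            _ ≤ _ := Finset.card_union_le _ _
            _ ≤ u + (k + 1) * u := add_le_add hcnt h2
            _ = (k + 1 + 1) * u := by ring
  by_cases hl : (0 : ℤ) < l
  · refine (main (Φ b) b (le_refl _) (by omega) (le_refl _)).trans ?_
    apply Nat.mul_le_mul_right
    simp only [hΦ]
    omega
  · have hempty : slab H b (b + l) = ∅ := by
      rw [Finset.eq_empty_iff_forall_notMem]
      intro g hg
      rw [mem_slab] at hg
      omega
    rw [hempty]
    simp

end Pool.Agent.Helper49.MC
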