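import Pool.Agent.Helper49.MC.FixedV

/-!
Existence of a random-like subset `C` of `[0,l) × H`.
-/

namespace Pool.Agent.Helper49.MC

open Finset

variable {H : Type*} [AddCommGroup H] [Fintype H] [DecidableEq H]

/-- the slab of points of `ℤ × H` with first coordinate in `[a, b)` -/
noncomputable def slab (H : Type*) [Fintype H] (a b : ℤ) : Finset (ℤ × H) := (Finset.Ico a b) ×ˢ Finset.univ

omit [AddCommGroup H] [DecidableEq H] in
lemma mem_slab {a b : ℤ} {g : ℤ × H} : g ∈ slab H a b ↔ a ≤ g.1 ∧ g.1 < b := by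
  unfold slab
  rw [Finset.mem_product, Finset.mem_Ico]
  simp

omit [AddCommGroup H] [DecidableEq H] in
lemma card_slab (a b : ℤ) : (slab H a b).card = (b - a).toNat * Fintype.card H := by
  unfold slab
  rw [Finset.card_product, Int.card_Ico, Finset.card_univ]

/-- the random-like property of `C`, normalised -/
def Good (H : Type*) [AddCommGroup H] [Fintype H] [DecidableEq H] (l : ℕ) (s u : ℕ)
    (C : Finset (ℤ × H)) : Prop :=
  ∀ V : Finset (ℤ × H), V ⊆ slab H (1 - l) 1 → V.Nonempty → V.card ≤ s →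
    ∀ y : ℤ, 1 ≤ y → y ≤ l → (∀ v ∈ V, y ≤ v.1 + l) →
      (V.card = s ∨ ∀ g ∈ slab H 0 y, ∃ v ∈ V, g - v ∈ C) →
      ((slab H 0 y).filter (fun g => (C ∩ blk V g).card ≤ 1)).card < u

lemma card_small_subsets {B : Type*} [DecidableEq B] (P : Finset B) (s : ℕ) :
    (P.powerset.filter (fun V => V.card ≤ s)).card ≤ (P.card + 1) ^ s := by
  have h1 : P.powerset.filter (fun V => V.card ≤ s)
      ⊆ (Finset.range (s + 1)).biUnion (fun r => Finset.powersetCard r P) := by
    intro V hV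
    rw [Finset.mem_filter, Finset.mem_powerset] at hV
    rw [Finset.mem_biUnion]
    exact ⟨V.card, by rw [Finset.mem_range]; omega, by rw [Finset.mem_powersetCard]; exact ⟨hV.1, rfl⟩⟩
  refine (Finset.card_le_card h1).trans (Finset.card_biUnion_le.trans ?_)
  simp only [Finset.card_powersetCard]
  rw [add_pow]
  apply Finset.sum_le_sum
  intro r hr
  rw [Finset.mem_range] at hr
  rw [one_pow, mul_one]
  have h2 : 1 ≤ s.choose r := Nat.choose_pos (by omega)
  calc P.card.choose r ≤ P.card ^ r := Nat.choose_le_pow _ _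
    _ = P.card ^ r * 1 := (mul_one _).symm
    _ ≤ P.card ^ r * s.choose r := Nat.mul_le_mul_left _ h2

lemma one_add_inv_pow (s : ℕ) (hs : 1 ≤ s) : (2 : ℝ) ≤ (1 + 1 / (s : ℝ)) ^ s := by
  have hs0 : (0 : ℝ) < s := by exact_mod_cast hs
  have h := one_add_mul_le_pow (a := 1 / (s : ℝ)) (by have : (0:ℝ) ≤ 1 / s := by positivity
                                                      linarith) s
  have h2 : (s : ℝ) * (1 / s) = 1 := by field_simp
  linarith

lemma pow_le_three (k : ℕ) (hk : 1 ≤ k) : (1 + 1 / (k : ℝ)) ^ k ≤ 3 := by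
  have hk0 : (0 : ℝ) < k := by exact_mod_cast hk
  have h1 : (1 + 1 / (k : ℝ)) ≤ Real.exp (1 / k) := by
    have := Real.add_one_le_exp (1 / (k : ℝ))
    linarith
  calc (1 + 1 / (k : ℝ)) ^ k ≤ (Real.exp (1 / k)) ^ k := pow_le_pow_left₀ (by positivity) h1 k
    _ = Real.exp 1 := by
        rw [← Real.exp_nat_mul]
        congr 1
        field_simp
    _ ≤ 3 := by
        have := Real.exp_one_lt_d9
        linarith

lemma num1 (m : ℕ) (hm : 3 ≤ m) : 1 + 2 * m ≤ 2 ^ m := by
  induction m, hm using Nat.le_induction with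
  | base => norm_num
  | succ n hn ih =>
    rw [pow_succ]
    omega

lemma num2 (m : ℕ) : m ^ 2 ≤ 2 ^ (m + 1) := by
  rcases Nat.lt_or_ge m 3 with h | h
  · interval_cases m <;> norm_num
  · induction m, h using Nat.le_induction with
    | base => norm_num
    | succ n hn ih =>
      have : 2 ^ (n + 1 + 1) = 2 * 2 ^ (n + 1) := by ring
      rw [this]
      nlinarith

theorem exists_good (m l : ℕ) (hm : 3 ≤ m) (hL : l * Fintype.card H + 1 ≤ 2 ^ m) :
    ∃ C : Finset (ℤ × H), C ⊆ slab H 0 l ∧ l * Fintype.card H ≤ 2 * C.card ∧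
      Good H l (2 * m) (32 * m ^ 5) C := by
  classical
  set J := slab H 0 l with hJ
  have hJc : J.card = l * Fintype.card H := by rw [hJ, card_slab]; simp
  have hHpos : 0 < Fintype.card H := Fintype.card_pos_iff.mpr ⟨0⟩
  set s := 2 * m with hs
  set t := 8 * m ^ 3 with ht
  set u := 32 * m ^ 5 with hu
  have hut : u = s ^ 2 * t := by rw [hu, hs, ht]; ring
  have hs1 : 1 ≤ s := by omega
  have ht1 : 1 ≤ t := by
    rw [ht]
    have : 0 < m ^ 3 := by positivity
    omega
  set 𝒱 := ((slab H (1 - l) 1).powerset.filter (fun V => V.card ≤ s)).filter (fun V => V.Nonempty)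
    with h𝒱
  set Ev : (Finset (ℤ × H) × ℤ) → Finset (ℤ × H) → Prop := fun p C =>
    (∀ v ∈ p.1, p.2 ≤ v.1 + l) ∧
    ((p.1.card = s ∧ u ≤ ((slab H 0 p.2).filter (fun g => (C ∩ blk p.1 g).card ≤ 1)).card) ∨
     ((∀ g ∈ slab H 0 p.2, (C ∩ blk p.1 g).card ≠ 0) ∧
        u ≤ ((slab H 0 p.2).filter (fun g => (C ∩ blk p.1 g).card = 1)).card)) with hEv
  -- bound for a single pair
  have hsingle : ∀ p ∈ 𝒱 ×ˢ Finset.Icc (1 : ℤ) l, Pr J (Ev p) ≤ 4 * (s : ℝ) ^ 2 / 2 ^ (4 * m ^ 2) := by
    rintro ⟨V, y⟩ hp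
    rw [Finset.mem_product, h𝒱, Finset.mem_filter, Finset.mem_filter, Finset.mem_powerset,
      Finset.mem_Icc] at hp
    obtain ⟨⟨⟨hVs, hVc⟩, hVne⟩, hy1, hyl⟩ := hp
    simp only at hVs hVc hVne hy1 hyl
    by_cases hcond : ∀ v ∈ V, y ≤ v.1 + l
    · have hY : ∀ g ∈ slab H 0 y, blk V g ⊆ J := by
        intro g hg x hx
        rw [mem_blk] at hx
        obtain ⟨v, hv, rfl⟩ := hx
        rw [hJ, mem_slab]
        rw [mem_slab] at hg
        have h1 := hcond v hv
        have h2 := hVs hv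
        rw [mem_slab] at h2
        simp only [Prod.fst_sub]
        omega
      have hYc : (slab H 0 y).card ≤ 2 ^ m := by
        have : (slab H 0 y) ⊆ J := by
          intro g hg
          rw [mem_slab] at hg
          rw [hJ, mem_slab]
          omega
        have := Finset.card_le_card this
        omega
      have b1 : Pr J (fun C => (∀ g ∈ slab H 0 y, (C ∩ blk V g).card ≠ 0) ∧
          s ^ 2 * t ≤ ((slab H 0 y).filter (fun g => (C ∩ blk V g).card = 1)).card)
          ≤ (s : ℝ) ^ 2 / 2 ^ (4 * m ^ 2) := by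
        refine (fixed1 J V (slab H 0 y) s t hVne hVc ht1 hY).trans ?_
        apply div_le_div_of_nonneg_left (by positivity) (by positivity)
        have e1 : t = s * (4 * m ^ 2) := by rw [ht, hs]; ring
        rw [e1, pow_mul (1 + 1 / (s : ℝ)) s (4 * m ^ 2)]
        exact pow_le_pow_left₀ (by norm_num) (one_add_inv_pow s hs1) _
      have b2 : V.card = s → Pr J (fun C =>
          s ^ 2 * t ≤ ((slab H 0 y).filter (fun g => (C ∩ blk V g).card ≤ 1)).card)
          ≤ 3 * (s : ℝ) ^ 2 / 2 ^ (4 * m ^ 2) := by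
        intro hVs'
        refine (fixed2 J V (slab H 0 y) s t hVne hVc ht1 hY).trans ?_
        rw [hVs']
        have e2 : (1 + (s : ℝ)) * (1 / 2 : ℝ) ^ s ≤ 1 / ((2 ^ m : ℕ) : ℝ) := by
          have h1 : (1 + (s : ℝ)) ≤ 2 ^ m := by
            have := num1 m hm
            rw [← hs] at this
            exact_mod_cast this
          have h2 : ((1 / 2 : ℝ)) ^ s = 1 / 2 ^ m * (1 / 2 ^ m) := by
            rw [hs, two_mul, pow_add, div_pow, one_pow]
          rw [h2]
          push_cast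
          have h3 : (0 : ℝ) < 2 ^ m := by positivity
          calc (1 + (s : ℝ)) * (1 / 2 ^ m * (1 / 2 ^ m)) ≤ 2 ^ m * (1 / 2 ^ m * (1 / 2 ^ m)) := by
                apply mul_le_mul_of_nonneg_right h1 (by positivity)
            _ = 1 / 2 ^ m := by field_simp
        have e3 : (1 + (1 + (s : ℝ)) * (1 / 2 : ℝ) ^ s) ^ (slab H 0 y).card ≤ 3 := by
          calc (1 + (1 + (s : ℝ)) * (1 / 2 : ℝ) ^ s) ^ (slab H 0 y).card
              ≤ (1 + 1 / ((2 ^ m : ℕ) : ℝ)) ^ (slab H 0 y).card := by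
                apply pow_le_pow_left₀ (by positivity)
                linarith
            _ ≤ (1 + 1 / ((2 ^ m : ℕ) : ℝ)) ^ (2 ^ m) := by
                apply pow_le_pow_right₀ _ hYc
                have : (0 : ℝ) ≤ 1 / ((2 ^ m : ℕ) : ℝ) := by positivity
                linarith
            _ ≤ 3 := pow_le_three (2 ^ m) Nat.one_le_two_pow
        have e4 : (2 : ℝ) ^ (4 * m ^ 2) ≤ 2 ^ t := by
          apply pow_le_pow_right₀ (by norm_num)
          rw [ht]
          have : m ^ 2 ≤ m ^ 3 := Nat.pow_le_pow_right (by omega) (by norm_num)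
          omega
        calc (s : ℝ) ^ 2 * ((1 + (1 + (s : ℝ)) * (1 / 2 : ℝ) ^ s) ^ (slab H 0 y).card / 2 ^ t)
            ≤ (s : ℝ) ^ 2 * (3 / 2 ^ (4 * m ^ 2)) := by
              apply mul_le_mul_of_nonneg_left _ (by positivity)
              exact div_le_div₀ (by norm_num) e3 (by positivity) e4
          _ = 3 * (s : ℝ) ^ 2 / 2 ^ (4 * m ^ 2) := by ring
      by_cases hVs' : V.card = s
      · calc Pr J (Ev (V, y)) ≤ Pr J (fun C =>
              (s ^ 2 * t ≤ ((slab H 0 y).filter (fun g => (C ∩ blk V g).card ≤ 1)).card) ∨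
              ((∀ g ∈ slab H 0 y, (C ∩ blk V g).card ≠ 0) ∧
          s ^ 2 * t ≤ ((slab H 0 y).filter (fun g => (C ∩ blk V g).card = 1)).card)) := by
              apply Pr_mono
              intro C _ hC
              simp only [hEv] at hC
              rw [← hut]
              rcases hC.2 with h | h
              · exact Or.inl h.2
              · exact Or.inr h
          _ ≤ 3 * (s : ℝ) ^ 2 / 2 ^ (4 * m ^ 2) + (s : ℝ) ^ 2 / 2 ^ (4 * m ^ 2) :=
              (Pr_or_le _ _ _).trans (add_le_add (b2 hVs') b1)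
          _ = 4 * (s : ℝ) ^ 2 / 2 ^ (4 * m ^ 2) := by ring
      · calc Pr J (Ev (V, y)) ≤ Pr J (fun C =>
              ((∀ g ∈ slab H 0 y, (C ∩ blk V g).card ≠ 0) ∧
          s ^ 2 * t ≤ ((slab H 0 y).filter (fun g => (C ∩ blk V g).card = 1)).card)) := by
              apply Pr_mono
              intro C _ hC
              simp only [hEv] at hC
              rw [← hut]
              rcases hC.2 with h | h
              · exact absurd h.1 hVs'
              · exact h
          _ ≤ (s : ℝ) ^ 2 / 2 ^ (4 * m ^ 2) := b1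
          _ ≤ 4 * (s : ℝ) ^ 2 / 2 ^ (4 * m ^ 2) := by
              apply div_le_div_of_nonneg_right _ (by positivity)
              have : (0 : ℝ) ≤ (s : ℝ) ^ 2 := by positivity
              linarith
    · have h0 : Pr J (Ev (V, y)) ≤ 0 := by
        unfold Pr
        rw [show (0 : ℝ) = Ex J (fun _ => (0 : ℝ)) from (Ex_const J 0).symm]
        apply Ex_mono
        intro C _
        rw [if_neg]
        · exact (Ex_const J 0).le
        · intro hC
          exact hcond hC.1
      exact h0.trans (by positivity)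
  have hcard : ((𝒱 ×ˢ Finset.Icc (1 : ℤ) l).card : ℝ) ≤ 2 ^ (2 * m ^ 2 + m) := by
    rw [Finset.card_product]
    have h1 : 𝒱.card ≤ 2 ^ (2 * m ^ 2) := by
      calc 𝒱.card ≤ ((slab H (1 - l) 1).powerset.filter (fun V => V.card ≤ s)).card :=
            Finset.card_filter_le _ _
        _ ≤ ((slab H (1 - l) 1).card + 1) ^ s := card_small_subsets _ _
        _ ≤ (2 ^ m) ^ s := by
            apply Nat.pow_le_pow_left
            rw [card_slab]
            have : ((1 : ℤ) - (1 - l)).toNat = l := by simp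
            rw [this]
            exact hL
        _ = 2 ^ (2 * m ^ 2) := by rw [← pow_mul, hs]; congr 1; ring
    have h2 : (Finset.Icc (1 : ℤ) l).card ≤ 2 ^ m := by
      rw [Int.card_Icc]
      have h3 : ((l : ℤ) + 1 - 1).toNat = l := by simp
      rw [h3]
      have : l ≤ l * Fintype.card H := Nat.le_mul_of_pos_right _ hHpos
      omega
    have h3 := Nat.mul_le_mul h1 h2
    rw [← pow_add] at h3
    exact_mod_cast h3
  have htotal : Pr J (fun C => ∃ p ∈ 𝒱 ×ˢ Finset.Icc (1 : ℤ) l, Ev p C) < 1 / 2 := by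
    refine (Pr_exists_le _ _ _).trans_lt ?_
    refine (Finset.sum_le_sum hsingle).trans_lt ?_
    rw [Finset.sum_const, nsmul_eq_mul]
    have h1 : ((𝒱 ×ˢ Finset.Icc (1 : ℤ) l).card : ℝ) * (4 * (s : ℝ) ^ 2 / 2 ^ (4 * m ^ 2))
        ≤ 2 ^ (2 * m ^ 2 + m) * (4 * (s : ℝ) ^ 2 / 2 ^ (4 * m ^ 2)) :=
      mul_le_mul_of_nonneg_right hcard (by positivity)
    refine h1.trans_lt ?_
    have h2 : (s : ℝ) ^ 2 ≤ 4 * 2 ^ (m + 1) := by
      have := num2 m
      have h3 : s ^ 2 ≤ 4 * 2 ^ (m + 1) := by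
        rw [hs]
        nlinarith
      exact_mod_cast h3
    have h3 : (2 : ℝ) ^ (2 * m ^ 2 + m) * (4 * (s : ℝ) ^ 2 / 2 ^ (4 * m ^ 2))
        ≤ 2 ^ (2 * m ^ 2 + m) * (4 * (4 * 2 ^ (m + 1)) / 2 ^ (4 * m ^ 2)) := by
      apply mul_le_mul_of_nonneg_left _ (by positivity)
      apply div_le_div_of_nonneg_right _ (by positivity)
      linarith
    refine h3.trans_lt ?_
    rw [← mul_div_assoc, div_lt_iff₀ (by positivity)]
    have h4 : (2 : ℝ) ^ (2 * m ^ 2 + m) * (4 * (4 * 2 ^ (m + 1))) = 2 ^ (2 * m ^ 2 + 2 * m + 5) := by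
      rw [show (4 : ℝ) = 2 ^ 2 by norm_num]
      rw [← pow_add, ← pow_add, ← pow_add]
      congr 1
      ring
    have h5 : (1 / 2 : ℝ) * 2 ^ (4 * m ^ 2) = 2 ^ (4 * m ^ 2 - 1) := by
      have : 1 ≤ 4 * m ^ 2 := by nlinarith
      obtain ⟨k, hk⟩ := Nat.exists_eq_add_of_le this
      rw [hk, pow_add]
      simp
    rw [h4, h5]
    apply pow_lt_pow_right₀ (by norm_num)
    have : 3 * m ≤ m ^ 2 := by nlinarith
    omega
  have hall : Pr J (fun C => (2 * C.card < J.card) ∨ ∃ p ∈ 𝒱 ×ˢ Finset.Icc (1 : ℤ) l, Ev p C) < 1 := by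
    refine (Pr_or_le _ _ _).trans_lt ?_
    have := Pr_half J
    linarith
  obtain ⟨C, hCJ, hC⟩ := exists_of_Pr_lt_one J _ hall
  push Not at hC
  refine ⟨C, hCJ, by rw [← hJc]; exact hC.1, ?_⟩
  intro V hVs hVne hVc y hy1 hyl hcond hcov
  have hmem : (V, y) ∈ 𝒱 ×ˢ Finset.Icc (1 : ℤ) l := by
    rw [Finset.mem_product, h𝒱, Finset.mem_filter, Finset.mem_filter, Finset.mem_powerset,
      Finset.mem_Icc]
    exact ⟨⟨⟨hVs, hVc⟩, hVne⟩, hy1, hyl⟩
  have hnE := hC.2 (V, y) hmem
  by_contra hcon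
  push Not at hcon
  apply hnE
  refine ⟨hcond, ?_⟩
  rcases hcov with h | h
  · left
    exact ⟨h, hcon⟩
  · right
    have hne : ∀ g ∈ slab H 0 y, (C ∩ blk V g).card ≠ 0 := by
      intro g hg h0
      obtain ⟨v, hv, hvC⟩ := h g hg
      rw [Finset.card_eq_zero] at h0
      have : g - v ∈ C ∩ blk V g := by
        rw [Finset.mem_inter, mem_blk]
        exact ⟨hvC, v, hv, rfl⟩
      rw [h0] at this
      simp at this
    refine ⟨hne, ?_⟩
    have heq : (slab H 0 y).filter (fun g => (C ∩ blk V g).card = 1)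
        = (slab H 0 y).filter (fun g => (C ∩ blk V g).card ≤ 1) := by
      apply Finset.filter_congr
      intro g hg
      have := hne g hg
      omega
    simp only
    rw [heq]
    exact hcon

end Pool.Agent.Helper49.MC
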