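import Pool.Agent.Helper49.MC.Bound

/-!
The bounds for one finite set `V` of translates in an abelian group.
-/

namespace Pool.Agent.Helper49.MC

open Finset

variable {A : Type*} [AddCommGroup A] [DecidableEq A]

/-- the block of elements `g - v`, `v ∈ V` -/
def blk (V : Finset A) (g : A) : Finset A := V.image (fun v => g - v)

lemma card_blk (V : Finset A) (g : A) : (blk V g).card = V.card := by
  unfold blk
  exact Finset.card_image_of_injective _ (fun a b h => by simpa using h)

lemma mem_blk (V : Finset A) (g x : A) : x ∈ blk V g ↔ ∃ v ∈ V, g - v = x := by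
  unfold blk
  rw [Finset.mem_image]

lemma card_inter_blk (V C : Finset A) (g : A) :
    (C ∩ blk V g).card = (V.filter (fun v => g - v ∈ C)).card := by
  symm
  apply Finset.card_bij (fun v _ => g - v)
  · intro v hv
    rw [Finset.mem_filter] at hv
    rw [Finset.mem_inter, mem_blk]
    exact ⟨hv.2, v, hv.1, rfl⟩
  · intro a _ b _ h
    simpa using h
  · intro x hx
    rw [Finset.mem_inter, mem_blk] at hx
    obtain ⟨h1, v, hv, rfl⟩ := hx
    exact ⟨v, by rw [Finset.mem_filter]; exact ⟨hv, h1⟩, rfl⟩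

lemma exists_col (V Y : Finset A) (hV : V.Nonempty) :
    ∃ col : A → ℕ, (∀ x ∈ Y, col x < V.card ^ 2) ∧
      ∀ x ∈ Y, ∀ y ∈ Y, x ≠ y → ¬ Disjoint (blk V x) (blk V y) → col x ≠ col y := by
  apply coloring Y (fun x y => ¬ Disjoint (blk V x) (blk V y))
  · intro x y h h2
    exact h h2.symm
  · intro x _ N hN
    have h1 : N ⊆ V.offDiag.image (fun p => x - p.1 + p.2) := by
      intro y hy
      obtain ⟨_, hyx, hR⟩ := hN y hy
      rw [Finset.not_disjoint_iff] at hR
      obtain ⟨z, hz1, hz2⟩ := hR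
      rw [mem_blk] at hz1 hz2
      obtain ⟨v, hv, hvz⟩ := hz1
      obtain ⟨v', hv', hvz'⟩ := hz2
      rw [Finset.mem_image]
      refine ⟨(v, v'), ?_, ?_⟩
      · rw [Finset.mem_offDiag]
        refine ⟨hv, hv', ?_⟩
        intro heq
        have heq' : v = v' := heq
        subst heq'
        apply hyx
        have : y - v = x - v := by rw [hvz, hvz']
        simpa using this
      · simp only
        rw [hvz, ← hvz']
        abel
    have h2 := Finset.card_le_card h1
    have h3 := Finset.card_image_le (s := V.offDiag) (f := fun p : A × A => x - p.1 + p.2)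
    rw [Finset.offDiag_card] at h3
    have h4 : 1 ≤ V.card := hV.card_pos
    have h5 : V.card * V.card - V.card < V.card ^ 2 := by
      have : V.card ≤ V.card * V.card := Nat.le_mul_self _
      have : V.card ^ 2 = V.card * V.card := sq _
      omega
    omega

lemma count_split (Y : Finset A) (col : A → ℕ) (d t : ℕ) (q : A → Prop) [DecidablePred q]
    (hcol : ∀ x ∈ Y, col x < d) (hd : 0 < d) (ht : 1 ≤ t) (h : d * t ≤ (Y.filter q).card) :
    ∃ c ∈ Finset.range d, t ≤ ((Y.filter (fun x => col x = c)).filter q).card := by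
  by_contra hcon
  push Not at hcon
  have h1 : (Y.filter q).card = ∑ c ∈ Finset.range d, ((Y.filter q).filter (fun x => col x = c)).card := by
    apply Finset.card_eq_sum_card_fiberwise
    intro x hx
    have hx' : x ∈ Y.filter q := hx
    rw [Finset.mem_filter] at hx'
    have := hcol x hx'.1
    simpa using this
  have h2 : ∀ c ∈ Finset.range d, ((Y.filter q).filter (fun x => col x = c)).card ≤ t - 1 := by
    intro c hc
    have h3 := hcon c hc
    rw [Finset.filter_comm] at h3
    omega
  have h4 := Finset.sum_le_sum h2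
  rw [← h1, Finset.sum_const, Finset.card_range, smul_eq_mul] at h4
  have h5 : d * (t - 1) < d * t := by
    apply Nat.mul_lt_mul_of_pos_left _ hd
    omega
  omega

lemma fixed1 (J V Y : Finset A) (s t : ℕ) (hV : V.Nonempty) (hVs : V.card ≤ s) (ht : 1 ≤ t)
    (hY : ∀ g ∈ Y, blk V g ⊆ J) :
    Pr J (fun C => (∀ g ∈ Y, (C ∩ blk V g).card ≠ 0) ∧
        s ^ 2 * t ≤ (Y.filter (fun g => (C ∩ blk V g).card = 1)).card)
      ≤ (s : ℝ) ^ 2 / (1 + 1 / (s : ℝ)) ^ t := by
  obtain ⟨col, hc1, hc2⟩ := exists_col V Y hV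
  have hr : 1 ≤ V.card := hV.card_pos
  have hs : 1 ≤ s := hr.trans hVs
  have hs0 : (0 : ℝ) < s := by exact_mod_cast hs
  have hr0 : (0 : ℝ) < V.card := by exact_mod_cast hr
  have step1 : Pr J (fun C => (∀ g ∈ Y, (C ∩ blk V g).card ≠ 0) ∧
        s ^ 2 * t ≤ (Y.filter (fun g => (C ∩ blk V g).card = 1)).card)
      ≤ Pr J (fun C => ∃ c ∈ Finset.range (V.card ^ 2),
          (∀ g ∈ Y.filter (fun x => col x = c), (C ∩ blk V g).card ≠ 0) ∧
          t ≤ ((Y.filter (fun x => col x = c)).filter (fun g => (C ∩ blk V g).card = 1)).card) := by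
    apply Pr_mono
    rintro C _ ⟨h1, h2⟩
    obtain ⟨c, hc, hct⟩ := count_split Y col (V.card ^ 2) t (fun g => (C ∩ blk V g).card = 1) hc1
      (by positivity) ht (le_trans (Nat.mul_le_mul_right _ (Nat.pow_le_pow_left hVs 2)) h2)
    exact ⟨c, hc, fun g hg => h1 g (Finset.mem_filter.mp hg).1, hct⟩
  refine step1.trans ((Pr_exists_le _ _ _).trans ?_)
  have step2 : ∀ c ∈ Finset.range (V.card ^ 2), Pr J (fun C =>
          (∀ g ∈ Y.filter (fun x => col x = c), (C ∩ blk V g).card ≠ 0) ∧
          t ≤ ((Y.filter (fun x => col x = c)).filter (fun g => (C ∩ blk V g).card = 1)).card)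
        ≤ 1 / (1 + 1 / (s : ℝ)) ^ t := by
    intro c _
    refine (class1 J (Y.filter (fun x => col x = c)) (blk V) V.card t hr ?_ ?_ ?_).trans ?_
    · intro g hg
      exact hY g (Finset.mem_filter.mp hg).1
    · intro g _
      exact card_blk V g
    · intro x hx y hy hxy
      rw [Finset.mem_filter] at hx hy
      by_contra hcon
      exact hc2 x hx.1 y hy.1 hxy hcon (hx.2.trans hy.2.symm)
    · have hrs : (V.card : ℝ) ≤ s := by exact_mod_cast hVs
      apply one_div_le_one_div_of_le
      · positivity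
      · apply pow_le_pow_left₀
        · positivity
        · have := one_div_le_one_div_of_le hr0 hrs
          linarith
  refine (Finset.sum_le_sum step2).trans ?_
  rw [Finset.sum_const, Finset.card_range, nsmul_eq_mul, mul_one_div]
  apply div_le_div_of_nonneg_right _ (by positivity)
  push_cast
  have hrs : (V.card : ℝ) ≤ s := by exact_mod_cast hVs
  exact pow_le_pow_left₀ hr0.le hrs 2

lemma fixed2 (J V Y : Finset A) (s t : ℕ) (hV : V.Nonempty) (hVs : V.card ≤ s) (ht : 1 ≤ t)
    (hY : ∀ g ∈ Y, blk V g ⊆ J) :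
    Pr J (fun C => s ^ 2 * t ≤ (Y.filter (fun g => (C ∩ blk V g).card ≤ 1)).card)
      ≤ (s : ℝ) ^ 2 * ((1 + (1 + V.card) * (1 / 2 : ℝ) ^ V.card) ^ Y.card / 2 ^ t) := by
  obtain ⟨col, hc1, hc2⟩ := exists_col V Y hV
  have hr : 1 ≤ V.card := hV.card_pos
  have step1 : Pr J (fun C => s ^ 2 * t ≤ (Y.filter (fun g => (C ∩ blk V g).card ≤ 1)).card)
      ≤ Pr J (fun C => ∃ c ∈ Finset.range (V.card ^ 2),
          t ≤ ((Y.filter (fun x => col x = c)).filter (fun g => (C ∩ blk V g).card ≤ 1)).card) := by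
    apply Pr_mono
    intro C _ h2
    obtain ⟨c, hc, hct⟩ := count_split Y col (V.card ^ 2) t (fun g => (C ∩ blk V g).card ≤ 1) hc1
      (by positivity) ht (le_trans (Nat.mul_le_mul_right _ (Nat.pow_le_pow_left hVs 2)) h2)
    exact ⟨c, hc, hct⟩
  refine step1.trans ((Pr_exists_le _ _ _).trans ?_)
  have step2 : ∀ c ∈ Finset.range (V.card ^ 2), Pr J (fun C =>
          t ≤ ((Y.filter (fun x => col x = c)).filter (fun g => (C ∩ blk V g).card ≤ 1)).card)
        ≤ (1 + (1 + V.card) * (1 / 2 : ℝ) ^ V.card) ^ Y.card / 2 ^ t := by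
    intro c _
    refine (class2 J (Y.filter (fun x => col x = c)) (blk V) V.card t ?_ ?_ ?_).trans ?_
    · intro g hg
      exact hY g (Finset.mem_filter.mp hg).1
    · intro g _
      exact card_blk V g
    · intro x hx y hy hxy
      rw [Finset.mem_filter] at hx hy
      by_contra hcon
      exact hc2 x hx.1 y hy.1 hxy hcon (hx.2.trans hy.2.symm)
    · apply div_le_div_of_nonneg_right _ (by positivity)
      apply pow_le_pow_right₀
      · have : (0 : ℝ) ≤ (1 + V.card) * (1 / 2 : ℝ) ^ V.card := by positivity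
        linarith
      · exact Finset.card_filter_le _ _
  refine (Finset.sum_le_sum step2).trans ?_
  rw [Finset.sum_const, Finset.card_range, nsmul_eq_mul]
  apply mul_le_mul_of_nonneg_right _ (by positivity)
  push_cast
  have hrs : (V.card : ℝ) ≤ s := by exact_mod_cast hVs
  exact pow_le_pow_left₀ (by positivity) hrs 2

end Pool.Agent.Helper49.MC
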