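import Mathlib

/-!
Counting over random subsets `C ⊆ J` (uniform), independence over disjoint blocks.
-/

namespace Pool.Agent.Helper49.MC

open Finset

variable {A : Type*} [DecidableEq A]

/-- average over the subsets of `J` -/
noncomputable def Ex (J : Finset A) (a : Finset A → ℝ) : ℝ :=
  (∑ C ∈ J.powerset, a C) / 2 ^ J.card

lemma two_pow_pos' (J : Finset A) : (0 : ℝ) < 2 ^ J.card := by positivity

lemma Ex_const (J : Finset A) (c : ℝ) : Ex J (fun _ => c) = c := by
  unfold Ex
  rw [Finset.sum_const, Finset.card_powerset]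
  simp

lemma Ex_add (J : Finset A) (a b : Finset A → ℝ) :
    Ex J (fun C => a C + b C) = Ex J a + Ex J b := by
  unfold Ex
  rw [Finset.sum_add_distrib, add_div]

lemma Ex_sub (J : Finset A) (a b : Finset A → ℝ) :
    Ex J (fun C => a C - b C) = Ex J a - Ex J b := by
  unfold Ex
  rw [Finset.sum_sub_distrib, sub_div]

lemma Ex_mul_left (J : Finset A) (c : ℝ) (a : Finset A → ℝ) :
    Ex J (fun C => c * a C) = c * Ex J a := by
  unfold Ex
  rw [← Finset.mul_sum, mul_div_assoc]

lemma Ex_sum {ι : Type*} (J : Finset A) (s : Finset ι) (a : ι → Finset A → ℝ) :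
    Ex J (fun C => ∑ i ∈ s, a i C) = ∑ i ∈ s, Ex J (a i) := by
  unfold Ex
  rw [Finset.sum_comm, Finset.sum_div]

lemma Ex_congr (J : Finset A) {a b : Finset A → ℝ} (h : ∀ C ∈ J.powerset, a C = b C) :
    Ex J a = Ex J b := by
  unfold Ex
  rw [Finset.sum_congr rfl h]

lemma Ex_mono (J : Finset A) {a b : Finset A → ℝ} (h : ∀ C ∈ J.powerset, a C ≤ b C) :
    Ex J a ≤ Ex J b := by
  unfold Ex
  exact div_le_div_of_nonneg_right (Finset.sum_le_sum h) (two_pow_pos' J).le

lemma Ex_nonneg (J : Finset A) {a : Finset A → ℝ} (h : ∀ C ∈ J.powerset, 0 ≤ a C) :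
    0 ≤ Ex J a := by
  unfold Ex
  exact div_nonneg (Finset.sum_nonneg h) (two_pow_pos' J).le

/-- independence of two functions, one depending only on `C ∩ S`, one only on `C \ S` -/
lemma Ex_mul (J S : Finset A) (a b : Finset A → ℝ)
    (ha : ∀ C, a C = a (C ∩ S)) (hb : ∀ C, b C = b (C \ S)) :
    Ex J (fun C => a C * b C) = Ex J a * Ex J b := by
  have key : (∑ C ∈ J.powerset, a C) * (∑ C ∈ J.powerset, b C)
      = 2 ^ J.card * ∑ C ∈ J.powerset, a C * b C := by
    rw [Finset.sum_mul_sum, ← Finset.sum_product']
    have h1 : ∑ p ∈ J.powerset ×ˢ J.powerset, a p.1 * b p.2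
        = ∑ p ∈ J.powerset ×ˢ J.powerset, a p.1 * b p.1 := by
      refine Finset.sum_nbij' (fun p => ((p.1 ∩ S) ∪ (p.2 \ S), (p.2 ∩ S) ∪ (p.1 \ S)))
        (fun p => ((p.1 ∩ S) ∪ (p.2 \ S), (p.2 ∩ S) ∪ (p.1 \ S))) ?_ ?_ ?_ ?_ ?_
      · intro p hp
        rw [Finset.mem_product, Finset.mem_powerset, Finset.mem_powerset] at hp ⊢
        constructor
        · exact Finset.union_subset (Finset.inter_subset_left.trans hp.1)
            (Finset.sdiff_subset.trans hp.2)
        · exact Finset.union_subset (Finset.inter_subset_left.trans hp.2)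
            (Finset.sdiff_subset.trans hp.1)
      · intro p hp
        rw [Finset.mem_product, Finset.mem_powerset, Finset.mem_powerset] at hp ⊢
        constructor
        · exact Finset.union_subset (Finset.inter_subset_left.trans hp.1)
            (Finset.sdiff_subset.trans hp.2)
        · exact Finset.union_subset (Finset.inter_subset_left.trans hp.2)
            (Finset.sdiff_subset.trans hp.1)
      · rintro ⟨p, q⟩ _
        ext x
        · simp only [Finset.mem_union, Finset.mem_inter, Finset.mem_sdiff]
          tauto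
        · simp only [Finset.mem_union, Finset.mem_inter, Finset.mem_sdiff]
          tauto
      · rintro ⟨p, q⟩ _
        ext x
        · simp only [Finset.mem_union, Finset.mem_inter, Finset.mem_sdiff]
          tauto
        · simp only [Finset.mem_union, Finset.mem_inter, Finset.mem_sdiff]
          tauto
      · rintro ⟨p, q⟩ _
        have e1 : a p = a ((p ∩ S) ∪ (q \ S)) := by
          rw [ha p, ha ((p ∩ S) ∪ (q \ S))]
          congr 1
          ext x
          simp only [Finset.mem_union, Finset.mem_inter, Finset.mem_sdiff]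
          tauto
        have e2 : b q = b ((p ∩ S) ∪ (q \ S)) := by
          rw [hb q, hb ((p ∩ S) ∪ (q \ S))]
          congr 1
          ext x
          simp only [Finset.mem_union, Finset.mem_inter, Finset.mem_sdiff]
          tauto
        simp only
        rw [← e1, ← e2]
    rw [h1, Finset.sum_product]
    simp only [Finset.sum_const, Finset.card_powerset]
    rw [Finset.mul_sum]
    refine Finset.sum_congr rfl fun C _ => ?_
    rw [nsmul_eq_mul]
    push_cast
    ring
  unfold Ex
  rw [div_mul_div_comm, key]
  have h2 : (0 : ℝ) < 2 ^ J.card := by positivity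
  field_simp

/-- product formula over pairwise disjoint blocks -/
lemma Ex_prod {ι : Type*} [DecidableEq ι] (J : Finset A) (F : Finset ι) (B : ι → Finset A)
    (w : ι → Finset A → ℝ) (hw : ∀ i ∈ F, ∀ C, w i C = w i (C ∩ B i))
    (hB : ∀ i ∈ F, ∀ j ∈ F, i ≠ j → Disjoint (B i) (B j)) :
    Ex J (fun C => ∏ i ∈ F, w i C) = ∏ i ∈ F, Ex J (w i) := by
  induction F using Finset.induction_on with
  | empty => simp [Ex_const]
  | insert i F hi ih =>
    have h1 : Ex J (fun C => ∏ j ∈ insert i F, w j C)
        = Ex J (fun C => w i C * ∏ j ∈ F, w j C) := by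
      apply Ex_congr
      intro C _
      rw [Finset.prod_insert hi]
    rw [h1, Ex_mul J (B i), ih, Finset.prod_insert hi]
    · exact fun j hj => hw j (Finset.mem_insert_of_mem hj)
    · exact fun j hj k hk => hB j (Finset.mem_insert_of_mem hj) k (Finset.mem_insert_of_mem hk)
    · exact hw i (Finset.mem_insert_self _ _)
    · intro C
      refine Finset.prod_congr rfl fun j hj => ?_
      rw [hw j (Finset.mem_insert_of_mem hj) C, hw j (Finset.mem_insert_of_mem hj) (C \ B i)]
      congr 1
      have hd := hB i (Finset.mem_insert_self _ _) j (Finset.mem_insert_of_mem hj)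
        (by rintro rfl; exact hi hj)
      rw [Finset.disjoint_left] at hd
      ext x
      simp only [Finset.mem_inter, Finset.mem_sdiff]
      constructor
      · rintro ⟨h1, h2⟩
        exact ⟨⟨h1, fun h3 => hd h3 h2⟩, h2⟩
      · rintro ⟨⟨h1, _⟩, h2⟩
        exact ⟨h1, h2⟩

/-- probability that a given point of `J` is in `C` -/
lemma Ex_mem (J : Finset A) (x : A) (hx : x ∈ J) :
    Ex J (fun C => if x ∈ C then (1 : ℝ) else 0) = 1 / 2 := by
  unfold Ex
  have h1 : ∑ C ∈ J.powerset, (if x ∈ C then (1 : ℝ) else 0)
      = ∑ C ∈ J.powerset, (if x ∈ C then (0 : ℝ) else 1) := by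
    refine Finset.sum_nbij' (fun C => J \ C) (fun C => J \ C) ?_ ?_ ?_ ?_ ?_
    · intro C _; simp
    · intro C _; simp
    · intro C hC
      rw [Finset.mem_powerset] at hC
      exact Finset.sdiff_sdiff_eq_self hC
    · intro C hC
      rw [Finset.mem_powerset] at hC
      exact Finset.sdiff_sdiff_eq_self hC
    · intro C _
      simp only [Finset.mem_sdiff]
      by_cases h : x ∈ C
      · simp [h]
      · simp [h, hx]
  have h2 : ∑ C ∈ J.powerset, (if x ∈ C then (1 : ℝ) else 0)
      + ∑ C ∈ J.powerset, (if x ∈ C then (0 : ℝ) else 1) = 2 ^ J.card := by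
    rw [← Finset.sum_add_distrib]
    have : ∀ C ∈ J.powerset, ((if x ∈ C then (1 : ℝ) else 0) + (if x ∈ C then (0 : ℝ) else 1)) = 1 := by
      intro C _
      by_cases h : x ∈ C <;> simp [h]
    rw [Finset.sum_congr rfl this]
    simp
  have h3 : (0 : ℝ) < 2 ^ J.card := by positivity
  rw [div_eq_iff h3.ne']
  linarith

lemma Ex_notMem (J : Finset A) (x : A) (hx : x ∈ J) :
    Ex J (fun C => if x ∈ C then (0 : ℝ) else 1) = 1 / 2 := by
  have h := Ex_mem J x hx
  have h1 : Ex J (fun C => if x ∈ C then (0 : ℝ) else 1)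
      = Ex J (fun C => 1 - (if x ∈ C then (1 : ℝ) else 0)) := by
    apply Ex_congr
    intro C _
    by_cases h : x ∈ C <;> simp [h]
  rw [h1, Ex_sub, Ex_const, h]
  norm_num

lemma card_inter_eq_zero_prod (B C : Finset A) :
    (if (C ∩ B).card = 0 then (1 : ℝ) else 0) = ∏ i ∈ B, (if i ∈ C then (0 : ℝ) else 1) := by
  by_cases h : (C ∩ B).card = 0
  · rw [if_pos h]
    rw [Finset.card_eq_zero] at h
    symm
    apply Finset.prod_eq_one
    intro i hi
    rw [if_neg]
    intro hC
    have : i ∈ C ∩ B := Finset.mem_inter.mpr ⟨hC, hi⟩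
    rw [h] at this
    simp at this
  · rw [if_neg h]
    rw [Finset.card_eq_zero, ← ne_eq, ← Finset.nonempty_iff_ne_empty] at h
    obtain ⟨x, hx⟩ := h
    rw [Finset.mem_inter] at hx
    symm
    exact Finset.prod_eq_zero hx.2 (by simp [hx.1])

/-- probability that the block is missed by `C` -/
lemma Ex_zero (J B : Finset A) (hB : B ⊆ J) :
    Ex J (fun C => if (C ∩ B).card = 0 then (1 : ℝ) else 0) = (1 / 2) ^ B.card := by
  have h1 : Ex J (fun C => if (C ∩ B).card = 0 then (1 : ℝ) else 0)
      = Ex J (fun C => ∏ i ∈ B, (if i ∈ C then (0 : ℝ) else 1)) :=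
    Ex_congr J fun C _ => card_inter_eq_zero_prod B C
  rw [h1, Ex_prod J B (fun i => {i}) (fun i C => if i ∈ C then (0 : ℝ) else 1)]
  · rw [Finset.prod_congr rfl (fun i hi => Ex_notMem J i (hB hi)), Finset.prod_const]
  · intro i _ C
    simp
  · intro i _ j _ hij
    simpa using hij

/-- probability that the block is hit exactly once -/
lemma Ex_one (J B : Finset A) (hB : B ⊆ J) :
    Ex J (fun C => if (C ∩ B).card = 1 then (1 : ℝ) else 0) = B.card * (1 / 2) ^ B.card := by
  have h1 : Ex J (fun C => if (C ∩ B).card = 1 then (1 : ℝ) else 0)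
      = Ex J (fun C => ∑ x ∈ B, ∏ i ∈ B, (if i = x then (if i ∈ C then (1 : ℝ) else 0)
          else (if i ∈ C then (0 : ℝ) else 1))) := by
    apply Ex_congr
    intro C _
    have hterm : ∀ x ∈ B, (∏ i ∈ B, (if i = x then (if i ∈ C then (1 : ℝ) else 0)
          else (if i ∈ C then (0 : ℝ) else 1))) = if C ∩ B = {x} then (1 : ℝ) else 0 := by
      intro x hx
      by_cases h : C ∩ B = {x}
      · rw [if_pos h]
        apply Finset.prod_eq_one
        intro i hi
        have hx' : x ∈ C := by
          have : x ∈ C ∩ B := by rw [h]; simp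
          exact (Finset.mem_inter.mp this).1
        by_cases hix : i = x
        · rw [if_pos hix, hix, if_pos hx']
        · rw [if_neg hix, if_neg]
          intro hiC
          have : i ∈ C ∩ B := Finset.mem_inter.mpr ⟨hiC, hi⟩
          rw [h, Finset.mem_singleton] at this
          exact hix this
      · rw [if_neg h]
        by_cases hxC : x ∈ C
        · have : ∃ i ∈ B, i ≠ x ∧ i ∈ C := by
            by_contra hcon
            push Not at hcon
            apply h
            ext i
            rw [Finset.mem_inter, Finset.mem_singleton]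
            constructor
            · rintro ⟨h1, h2⟩
              by_contra h3
              exact hcon i h2 h3 h1
            · rintro rfl
              exact ⟨hxC, hx⟩
          obtain ⟨i, hi, hix, hiC⟩ := this
          exact Finset.prod_eq_zero hi (by simp [hix, hiC])
        · exact Finset.prod_eq_zero hx (by simp [hxC])
    rw [Finset.sum_congr rfl hterm]
    by_cases h : (C ∩ B).card = 1
    · rw [if_pos h]
      obtain ⟨x, hx⟩ := Finset.card_eq_one.mp h
      have hxB : x ∈ B := by
        have : x ∈ C ∩ B := by rw [hx]; simp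
        exact (Finset.mem_inter.mp this).2
      rw [Finset.sum_eq_single_of_mem x hxB]
      · rw [if_pos hx]
      · intro y _ hyx
        rw [if_neg]
        intro h2
        rw [hx] at h2
        have := Finset.singleton_injective h2
        exact hyx this.symm
    · rw [if_neg h]
      symm
      apply Finset.sum_eq_zero
      intro x _
      rw [if_neg]
      intro h2
      exact h (by rw [h2]; simp)
  rw [h1, Ex_sum]
  have h2 : ∀ x ∈ B, Ex J (fun C => ∏ i ∈ B, (if i = x then (if i ∈ C then (1 : ℝ) else 0)
          else (if i ∈ C then (0 : ℝ) else 1))) = (1 / 2) ^ B.card := by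
    intro x hx
    rw [Ex_prod J B (fun i => {i}) (fun i C => if i = x then (if i ∈ C then (1 : ℝ) else 0)
          else (if i ∈ C then (0 : ℝ) else 1))]
    · rw [← Finset.prod_const]
      refine Finset.prod_congr rfl fun i hi => ?_
      by_cases hix : i = x
      · simp only [hix, if_true]
        exact Ex_mem J x (hB hx)
      · simp only [hix, if_false]
        exact Ex_notMem J i (hB hi)
    · intro i _ C
      simp
    · intro i _ j _ hij
      simpa using hij
  rw [Finset.sum_congr rfl h2, Finset.sum_const, nsmul_eq_mul]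

end Pool.Agent.Helper49.MC
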