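import Pool.Agent.Helper23.MC.Goals1
import Pool.Agent.Helper85.RR.S1
import Pool.Agent.Helper24.PP.MA

/-!
# Project MC, packet SV: the mean square of the weight times a function on the points of `H`
-/

set_option autoImplicit false

open Finset Filter Topology

open scoped Classical

namespace Pool.Agent.Helper49.MC

open Pool.Agent.Helper88.PP (pr Rg om Sf SS uu vv ee LA VV QQ cost)
open Pool.Agent.Helper88.RR (gg ab TB WB nz wb DB Db VM)
open Pool.Agent.Helper88.GM (NI XI gB In)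
open Pool.Agent.Helper88.CG (tw pw th ic DS sg CN qE mE)
open Pool.Agent.Helper23.MC
open Pool.Agent.Helper85.RR (ab_nonneg mem_TB card_TB prod_TB WB_eq DB_eq one_le_DB gg_nonneg nz_le)

section comb

variable {P H : Finset ℕ} (hd : Disjoint P H)

/-- the label function on `P ∪ H` given by label functions on `P` and `H` -/
noncomputable def cb (r : P → ℕ) (s : H → ℕ) : ((P ∪ H : Finset ℕ) : Type) → ℕ :=
  fun i => Sum.elim r s ((Equiv.Finset.union P H hd).symm i)

/-- the point of `P ∪ H` given by a point of `P` -/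
noncomputable def iP (i : P) : ((P ∪ H : Finset ℕ) : Type) := Equiv.Finset.union P H hd (Sum.inl i)

/-- the point of `P ∪ H` given by a point of `H` -/
noncomputable def iH (i : H) : ((P ∪ H : Finset ℕ) : Type) := Equiv.Finset.union P H hd (Sum.inr i)

theorem iP_val (i : P) : (iP hd i : ℕ) = i := rfl

theorem iH_val (i : H) : (iH hd i : ℕ) = i := rfl

theorem cb_P (r : P → ℕ) (s : H → ℕ) (i : P) : cb hd r s (iP hd i) = r i := by
  unfold cb iP
  rw [Equiv.symm_apply_apply]
  rfl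

theorem cb_H (r : P → ℕ) (s : H → ℕ) (i : H) : cb hd r s (iH hd i) = s i := by
  unfold cb iH
  rw [Equiv.symm_apply_apply]
  rfl

theorem cases_U (i : ((P ∪ H : Finset ℕ) : Type)) : (∃ j, i = iP hd j) ∨ ∃ j, i = iH hd j := by
  obtain ⟨j, rfl⟩ := (Equiv.Finset.union P H hd).surjective i
  rcases j with j | j
  · exact Or.inl ⟨j, rfl⟩
  · exact Or.inr ⟨j, rfl⟩

theorem prod_cb {R : Type} [CommMonoid R] (r : P → ℕ) (s : H → ℕ) (f : ℕ → ℕ → R) :
    ∏ i : ((P ∪ H : Finset ℕ) : Type), f (i : ℕ) (cb hd r s i) =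
      (∏ i : P, f i (r i)) * ∏ i : H, f i (s i) := by
  rw [← Equiv.prod_comp (Equiv.Finset.union P H hd), Fintype.prod_sum_type]
  congr 1
  · refine Finset.prod_congr rfl fun i _ => ?_
    exact congrArg (f (i : ℕ)) (cb_P hd r s i)
  · refine Finset.prod_congr rfl fun i _ => ?_
    exact congrArg (f (i : ℕ)) (cb_H hd r s i)

theorem sum_cb {R : Type} [AddCommMonoid R] (r : P → ℕ) (s : H → ℕ) (f : ℕ → ℕ → R) :
    ∑ i : ((P ∪ H : Finset ℕ) : Type), f (i : ℕ) (cb hd r s i) =
      (∑ i : P, f i (r i)) + ∑ i : H, f i (s i) := by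
  rw [← Equiv.sum_comp (Equiv.Finset.union P H hd), Fintype.sum_sum_type]
  congr 1
  · refine Finset.sum_congr rfl fun i _ => ?_
    exact congrArg (f (i : ℕ)) (cb_P hd r s i)
  · refine Finset.sum_congr rfl fun i _ => ?_
    exact congrArg (f (i : ℕ)) (cb_H hd r s i)

theorem cb_inj {r r' : P → ℕ} {s s' : H → ℕ} (h : cb hd r s = cb hd r' s') : r = r' ∧ s = s' := by
  constructor
  · ext i
    rw [← cb_P hd r s i, h, cb_P]
  · ext i
    rw [← cb_H hd r s i, h, cb_H]

theorem nz_cb (r : P → ℕ) (s : H → ℕ) : nz (cb hd r s) = nz r + nz s := by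
  unfold nz
  rw [Finset.card_filter, Finset.card_filter, Finset.card_filter,
    sum_cb hd r s (fun _ v => if v ≠ 0 then 1 else 0)]

end comb

theorem SS_pos {z X r : ℕ} (h : r ∈ SS z X) : 1 ≤ r := by
  unfold SS at h
  exact (Finset.mem_Ico.1 (Finset.mem_filter.1 h).1).1

theorem nz_H {z X : ℕ} {H : Finset ℕ} {s : H → ℕ} (hs : ∀ i, s i ∈ SS z X) : nz s = H.card := by
  unfold nz
  rw [Finset.filter_true_of_mem, Finset.card_univ, Fintype.card_coe]
  intro i _
  have := SS_pos (hs i)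
  omega

theorem sv (hT : StmtTGA) (hG : StmtGV) : StmtSV := by
  intro A K0 C hC
  obtain ⟨c, hc, E1, hT⟩ := hT A
  obtain ⟨cg, hcg, E2, hG⟩ := hG K0
  obtain ⟨c1, C1, hc1, hC1, hma⟩ := Pool.Agent.Helper24.PP.ma
  obtain ⟨L, hL⟩ : ∃ L : ℝ, L = C * C1 ^ K0 := ⟨_, rfl⟩
  have hL1 : 1 ≤ L := by
    rw [hL]
    exact one_le_mul_of_one_le_of_one_le hC (one_le_pow₀ hC1)
  have hL0 : 0 < L := lt_of_lt_of_le one_pos hL1
  obtain ⟨E3, hE3⟩ := exists_nat_ge (Real.log (L ^ 2) / (c / 2))
  refine ⟨c / 2, by positivity, E1 + E2 + E3 + 2 * K0 + 1, ?_⟩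
  intro E z x y hE hsr u v Q b hI P H hP hH hd hcard hPo T κ hAd
  have hE1 : 1 ≤ E := by omega
  have hEK : 2 * K0 ≤ E := by omega
  obtain ⟨⟨hm, hqm, -, h2E, hK6, -, hVz⟩, hgg⟩ := hG E (by omega)
  have hz2 : 2 ≤ z := by
    have h1 : (1 : ℝ) + 1 ≤ z := by
      have h2 : (1 : ℝ) ≤ E := by exact_mod_cast hE1
      have h3 := Real.add_one_le_exp (E : ℝ)
      have h4 := hsr.1
      linarith only [h2, h3, h4]
    have h5 : ((2 : ℕ) : ℝ) ≤ z := by
      push_cast
      linarith only [h1]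
    exact_mod_cast h5
  obtain ⟨hV, -⟩ := hVz z hz2
  have hUsub : P ∪ H ⊆ Icc 1 y := Finset.union_subset hP hH
  have hUcard : P.card + H.card ≤ y := by
    rw [← Finset.card_union_of_disjoint hd]
    exact (Finset.card_le_card hUsub).trans (by simp)
  have hPy : P.card ≤ y := by omega
  refine ⟨one_le_DB (mE E) (qE E) (E / 32) z y hPy, ?_⟩
  have hom1 : om y z ≤ 1 := by
    unfold om
    refine Finset.prod_le_one (fun p hp => ?_) fun p hp => ?_
    · have h1 : 1 ≤ p := by
        unfold pr at hp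
        exact (Finset.mem_filter.1 hp).2.one_lt.le
      have h2 : (1 : ℝ) ≤ p := by exact_mod_cast h1
      have h3 : 1 / (p : ℝ) ≤ 1 := by
        rw [div_le_one (by linarith only [h2])]
        exact h2
      linarith only [h3]
    · have : (0 : ℝ) ≤ 1 / (p : ℝ) := by positivity
      linarith only [this]
  have hom0 : 0 ≤ om y z := by
    unfold om
    refine Finset.prod_nonneg fun p hp => ?_
    have h1 : 1 ≤ p := by
      unfold pr at hp
      exact (Finset.mem_filter.1 hp).2.one_lt.le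
    have h2 : (1 : ℝ) ≤ p := by exact_mod_cast h1
    have h3 : 1 / (p : ℝ) ≤ 1 := by
      rw [div_le_one (by linarith only [h2])]
      exact h2
    linarith only [h3]
  obtain ⟨hs1, hs2, hs3⟩ := hAd
  -- the normalisation
  have hVM1 : 1 ≤ VM (E / 32) z := by
    unfold VM
    have h1 : 1 ∈ SS z (z ^ (E / 32)) := by
      unfold SS
      rw [Finset.mem_filter, Finset.mem_Ico]
      refine ⟨⟨le_rfl, ?_⟩, squarefree_one, fun p hp h => ?_⟩
      · exact Nat.one_lt_pow (by omega) (by omega)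
      · exact absurd (Nat.dvd_one.1 h) hp.one_lt.ne'
    have h2 := Finset.single_le_sum (f := fun s : ℕ => 1 / (Nat.totient s : ℝ))
      (fun i _ => by positivity) h1
    simpa using h2
  have hVM : 1 / (E : ℝ) ≤ C1 / VM (E / 32) z := by
    have h1 := (hma z (E / 32) hz2 (by omega)).2.1
    have h2 : ((E / 32 : ℕ) : ℝ) ≤ E := by exact_mod_cast Nat.div_le_self E 32
    have h3 : VM (E / 32) z ≤ C1 * E := by
      unfold VM
      refine h1.trans (mul_le_mul_of_nonneg_left h2 (by linarith only [hC1]))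
    rw [div_le_div_iff₀ (by exact_mod_cast hE1) (by linarith only [hVM1])]
    linarith only [h3]
  -- the set of labels and the coefficients
  set e := fun x : (P → ℕ) × (H → ℕ) => cb hd x.1 x.2 with he
  have heinj : Set.InjOn e ((TB (mE E) (qE E) (E / 32) z P ×ˢ T : Finset _) : Set _) := by
    intro a _ b _ hab
    obtain ⟨h1, h2⟩ := cb_inj hd hab
    exact Prod.ext h1 h2
  set T' := (TB (mE E) (qE E) (E / 32) z P ×ˢ T).image e with hT'
  set cf : (P → ℕ) → ℝ := fun r => ∏ i : P, (if r i = 0 then 1 else - ab (mE E) (qE E) z (r i))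
    with hcf
  set a : (((P ∪ H : Finset ℕ) : Type) → ℕ) → ℝ := fun t =>
    cf (fun i => t (iP hd i)) * κ (fun i => t (iH hd i)) / L with ha
  have ha' : ∀ r s, a (cb hd r s) = cf r * κ s / L := by
    intro r s
    simp only [ha, cb_P, cb_H]
  have hmemT' : ∀ t ∈ T', ∃ r ∈ TB (mE E) (qE E) (E / 32) z P, ∃ s ∈ T, t = cb hd r s := by
    intro t ht
    obtain ⟨⟨r, s⟩, hrs, rfl⟩ := Finset.mem_image.1 ht
    obtain ⟨hr, hs⟩ := Finset.mem_product.1 hrs
    exact ⟨r, hr, s, hs, rfl⟩
  have key := hT E z x y (by omega) hsr u v Q b hI (mE E) (qE E) (E / 32 / mE E + K0) hm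
    (hqm.trans (by omega)) hV ?_ (P ∪ H) hUsub ?_ T' a
    (univ.filter (fun i : ((P ∪ H : Finset ℕ) : Type) => (i : ℕ) ∈ H)) ∅ (by simp) ?_ ?_ (by simp)
    ?_ ?_ ?_
  rotate_left
  · have h0 : ∀ w : ℕ, w ≤ 2 * (w + 2) := fun w => by omega
    have h0' : ∀ w : ℕ, 0 < 2 * (w + 2) := fun w => by omega
    have h1 : (E / 32 / mE E + K0) ^ 3 ≤ (2 * (E / 32 / mE E + K0 + 2)) ^ 3 :=
      Nat.pow_le_pow_left (h0 _) 3
    have h2 : (2 * (E / 32 / mE E + K0 + 2)) ^ 3 ≤ (2 * (E / 32 / mE E + K0 + 2)) ^ 6 :=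
      Nat.pow_le_pow_right (h0' _) (by omega)
    exact (h1.trans h2).trans hK6
  · rw [Finset.card_union_of_disjoint hd]
    push_cast
    have h1 : (H.card : ℝ) * om y z ≤ K0 := by
      have h2 : (H.card : ℝ) ≤ K0 := by exact_mod_cast hcard
      calc (H.card : ℝ) * om y z ≤ K0 * 1 := mul_le_mul h2 hom1 hom0 (by positivity)
        _ = K0 := mul_one _
    have h3 : (2 : ℝ) * K0 ≤ E := by exact_mod_cast hEK
    have h4 : (1 : ℝ) ≤ E := by exact_mod_cast hE1
    nlinarith only [hPo, h1, h4, h3]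
  · intro t ht i hiF _
    obtain ⟨r, hr, s, hs, rfl⟩ := hmemT' t ht
    rcases cases_U hd i with ⟨j, rfl⟩ | ⟨j, rfl⟩
    · rw [cb_P]
      exact (mem_TB hr).1 j
    · exfalso
      refine hiF ?_
      rw [Finset.mem_filter]
      exact ⟨Finset.mem_univ _, j.2⟩
  · intro t ht i hiF
    obtain ⟨r, hr, s, hs, rfl⟩ := hmemT' t ht
    rcases cases_U hd i with ⟨j, rfl⟩ | ⟨j, rfl⟩
    · exfalso
      rw [Finset.mem_filter] at hiF
      exact Finset.disjoint_left.1 hd j.2 hiF.2
    · rw [cb_H]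
      exact hs1 s hs j
  · intro t ht
    obtain ⟨r, hr, s, hs, rfl⟩ := hmemT' t ht
    rw [nz_cb, nz_H (hs1 s hs)]
    exact Nat.add_le_add (card_TB hm hz2 hr) hcard
  · intro t ht
    obtain ⟨r, hr, s, hs, rfl⟩ := hmemT' t ht
    rw [prod_cb hd r s (fun _ v => max 1 v)]
    have h1 : ∏ i : H, max 1 (s i) = ∏ i : H, s i :=
      Finset.prod_congr rfl fun i _ => max_eq_right (SS_pos (hs1 s hs i))
    rw [h1]
    calc (∏ i : P, max 1 (r i)) * ∏ i : H, s i ≤ z ^ (E / 32) * z ^ (E / 32) :=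
          Nat.mul_le_mul (prod_TB hz2 hr) (hs2 s hs)
      _ = z ^ (E / 32 + E / 32) := (pow_add _ _ _).symm
      _ ≤ z ^ (2 * (E / 16)) := Nat.pow_le_pow_right (by omega) (by omega)
  · intro t ht
    obtain ⟨r, hr, s, hs, rfl⟩ := hmemT' t ht
    have h1 : (∏ i : ((P ∪ H : Finset ℕ) : Type),
        (if i ∈ univ.filter (fun i : ((P ∪ H : Finset ℕ) : Type) => (i : ℕ) ∈ H) then
          1 / (VM (E / 32) z * (Nat.totient (cb hd r s i) : ℝ)) else
          if i ∈ (∅ : Finset ((P ∪ H : Finset ℕ) : Type)) then 1 else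
          if cb hd r s i = 0 then 1 else ab (mE E) (qE E) z (cb hd r s i))) =
        (∏ i : P, (if r i = 0 then 1 else ab (mE E) (qE E) z (r i))) *
          ∏ i : H, 1 / (VM (E / 32) z * (Nat.totient (s i) : ℝ)) := by
      have h2 := prod_cb hd r s (fun j v => if j ∈ H then 1 / (VM (E / 32) z * (Nat.totient v : ℝ))
        else if v = 0 then 1 else ab (mE E) (qE E) z v)
      have h3 : (∏ i : P, (if (i : ℕ) ∈ H then 1 / (VM (E / 32) z * (Nat.totient (r i) : ℝ))
          else if r i = 0 then 1 else ab (mE E) (qE E) z (r i))) =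
          ∏ i : P, (if r i = 0 then 1 else ab (mE E) (qE E) z (r i)) :=
        Finset.prod_congr rfl fun i _ => if_neg (Finset.disjoint_left.1 hd i.2)
      have h4 : (∏ i : H, (if (i : ℕ) ∈ H then 1 / (VM (E / 32) z * (Nat.totient (s i) : ℝ))
          else if s i = 0 then 1 else ab (mE E) (qE E) z (s i))) =
          ∏ i : H, 1 / (VM (E / 32) z * (Nat.totient (s i) : ℝ)) :=
        Finset.prod_congr rfl fun i _ => if_pos i.2
      rw [h3, h4] at h2
      rw [← h2]
      refine Finset.prod_congr rfl fun i _ => ?_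
      simp only [Finset.mem_filter, Finset.mem_univ, true_and, Finset.notMem_empty, if_false]
    rw [h1, ha', abs_div, abs_mul, abs_of_pos hL0]
    have h5 : |cf r| = ∏ i : P, (if r i = 0 then 1 else ab (mE E) (qE E) z (r i)) := by
      rw [hcf]
      simp only []
      rw [Finset.abs_prod]
      refine Finset.prod_congr rfl fun i _ => ?_
      split_ifs
      · rw [abs_one]
      · rw [abs_neg, abs_of_nonneg (ab_nonneg _ _ _ _)]
    have h6 : |κ s| ≤ L * ∏ i : H, 1 / (VM (E / 32) z * (Nat.totient (s i) : ℝ)) := by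
      have h7 : ∏ i : H, 1 / ((E : ℝ) * (Nat.totient (s i) : ℝ)) ≤
          ∏ i : H, (C1 * (1 / (VM (E / 32) z * (Nat.totient (s i) : ℝ)))) := by
        refine Finset.prod_le_prod (fun i _ => by positivity) fun i _ => ?_
        have h8 : (0 : ℝ) ≤ 1 / (Nat.totient (s i) : ℝ) := by positivity
        calc 1 / ((E : ℝ) * (Nat.totient (s i) : ℝ)) = 1 / (E : ℝ) * (1 / (Nat.totient (s i) : ℝ)) := by
              rw [one_div_mul_one_div]
          _ ≤ C1 / VM (E / 32) z * (1 / (Nat.totient (s i) : ℝ)) :=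
              mul_le_mul_of_nonneg_right hVM h8
          _ = _ := by
              rw [div_mul_div_comm, mul_one, mul_one_div]
      rw [Finset.prod_mul_distrib, Finset.prod_const, Finset.card_univ, Fintype.card_coe] at h7
      have h9 : C1 ^ H.card ≤ C1 ^ K0 := pow_le_pow_right₀ hC1 hcard
      have h10 : 0 ≤ ∏ i : H, 1 / (VM (E / 32) z * (Nat.totient (s i) : ℝ)) :=
        Finset.prod_nonneg fun i _ => by positivity
      calc |κ s| ≤ C * ∏ i : H, 1 / ((E : ℝ) * (Nat.totient (s i) : ℝ)) := hs3 s hs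
        _ ≤ C * (C1 ^ K0 * ∏ i : H, 1 / (VM (E / 32) z * (Nat.totient (s i) : ℝ))) :=
            mul_le_mul_of_nonneg_left (h7.trans (mul_le_mul_of_nonneg_right h9 h10)) (by linarith only [hC])
        _ = _ := by rw [hL, mul_assoc]
    rw [h5, div_le_iff₀ hL0, mul_assoc]
    refine mul_le_mul_of_nonneg_left ?_ (Finset.prod_nonneg fun i _ => ?_)
    · rw [mul_comm _ L]
      exact h6
    · split_ifs
      · exact zero_le_one
      · exact ab_nonneg _ _ _ _
  -- the sums over `T'`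
  have hsum : ∀ f : (((P ∪ H : Finset ℕ) : Type) → ℕ) → ℝ,
      ∑ t ∈ T', f t = ∑ r ∈ TB (mE E) (qE E) (E / 32) z P, ∑ s ∈ T, f (cb hd r s) := by
    intro f
    rw [hT', Finset.sum_image heinj, Finset.sum_product]
  have hW : ∀ n, L * (∑ t ∈ T', a t * ∏ i, vv y z (t i) (n + (i : ℕ))) =
      W1 E z y P n * VH y z H T κ n := by
    intro n
    rw [hsum]
    unfold W1 VH
    rw [WB_eq, Finset.sum_mul_sum, Finset.mul_sum]
    refine Finset.sum_congr rfl fun r _ => ?_
    rw [Finset.mul_sum]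
    refine Finset.sum_congr rfl fun s _ => ?_
    rw [ha', prod_cb hd r s (fun j v => vv y z v (n + j))]
    have hL' : L ≠ 0 := hL0.ne'
    simp only [hcf]
    field_simp
  obtain ⟨M, hM⟩ : ∃ M : ℝ, M = ∑ t ∈ T', a t ^ 2 *
      (gg y z (nz t) * ∏ i, (if t i = 0 then 1 else (Nat.totient (t i) : ℝ))) := ⟨_, rfl⟩
  rw [← hM] at key
  have hMle : L ^ 2 * M ≤ D1 E z y P * (om y z ^ H.card * NH H T κ) := by
    rw [hM, hsum]
    unfold D1 NH
    rw [DB_eq, Finset.mul_sum, Finset.sum_mul]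
    refine Finset.sum_le_sum fun r hr => ?_
    rw [Finset.mul_sum, Finset.mul_sum, Finset.mul_sum]
    refine Finset.sum_le_sum fun s hs => ?_
    rw [ha', nz_cb, nz_H (hs1 s hs),
      prod_cb hd r s (fun _ v => if v = 0 then 1 else (Nat.totient v : ℝ))]
    have h1 : (∏ i : H, (if s i = 0 then 1 else (Nat.totient (s i) : ℝ))) =
        ∏ i : H, (Nat.totient (s i) : ℝ) := by
      refine Finset.prod_congr rfl fun i _ => if_neg ?_
      have := SS_pos (hs1 s hs i)
      omega
    rw [h1]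
    have h2 := (hgg y z (nz r) H.card (by
      have := nz_le r
      omega)).2
    have h3 : 0 ≤ (∏ i : P, (if r i = 0 then 1 else (Nat.totient (r i) : ℝ))) :=
      Finset.prod_nonneg fun i _ => by split_ifs <;> positivity
    have h4 : 0 ≤ ∏ i : H, (Nat.totient (s i) : ℝ) := Finset.prod_nonneg fun i _ => by positivity
    have hL' : L ≠ 0 := hL0.ne'
    calc L ^ 2 * ((cf r * κ s / L) ^ 2 * (gg y z (nz r + H.card) *
          ((∏ i : P, (if r i = 0 then 1 else (Nat.totient (r i) : ℝ))) *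
            ∏ i : H, (Nat.totient (s i) : ℝ))))
        = gg y z (nz r + H.card) * (cf r ^ 2 * κ s ^ 2 *
          ((∏ i : P, (if r i = 0 then 1 else (Nat.totient (r i) : ℝ))) *
            ∏ i : H, (Nat.totient (s i) : ℝ))) := by
          field_simp
      _ ≤ (gg y z (nz r) * om y z ^ H.card) * (cf r ^ 2 * κ s ^ 2 *
          ((∏ i : P, (if r i = 0 then 1 else (Nat.totient (r i) : ℝ))) *
            ∏ i : H, (Nat.totient (s i) : ℝ))) :=
          mul_le_mul_of_nonneg_right h2 (by positivity)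
      _ = _ := by
          simp only [hcf]
          ring
  have hXI : 0 ≤ XI u v Q := by
    unfold XI
    positivity
  have hLE : L ^ 2 * Real.exp (-(c * E)) ≤ Real.exp (-(c / 2 * E)) := by
    have h1 : Real.log (L ^ 2) ≤ c / 2 * E := by
      have h2 : (E3 : ℝ) ≤ E := by exact_mod_cast (by omega : E3 ≤ E)
      have h3 := hE3.trans h2
      rw [div_le_iff₀ (by positivity)] at h3
      linarith only [h3]
    have h2 : L ^ 2 ≤ Real.exp (c / 2 * E) := by
      rw [← Real.log_le_iff_le_exp (by positivity)]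
      exact h1
    calc L ^ 2 * Real.exp (-(c * E)) ≤ Real.exp (c / 2 * E) * Real.exp (-(c * E)) :=
          mul_le_mul_of_nonneg_right h2 (Real.exp_pos _).le
      _ = Real.exp (-(c / 2 * E)) := by
          rw [← Real.exp_add]
          congr 1
          ring
  have h5 := (abs_le.1 key).2
  calc ∑ n ∈ NI u v Q b, W1 E z y P n ^ 2 * VH y z H T κ n ^ 2
      = L ^ 2 * ∑ n ∈ NI u v Q b, (∑ t ∈ T', a t * ∏ i, vv y z (t i) (n + (i : ℕ))) ^ 2 := by
        rw [Finset.mul_sum]
        refine Finset.sum_congr rfl fun n _ => ?_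
        rw [← mul_pow, ← mul_pow, hW]
    _ ≤ L ^ 2 * (XI u v Q * M + Real.exp (-(c * E)) * XI u v Q) :=
        mul_le_mul_of_nonneg_left (by linarith only [h5]) (by positivity)
    _ = XI u v Q * (L ^ 2 * M + L ^ 2 * Real.exp (-(c * E))) := by ring
    _ ≤ _ := mul_le_mul_of_nonneg_left (add_le_add hMle hLE) hXI

end Pool.Agent.Helper49.MC
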