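import Pool.Agent.Helper49.MC.Det

/-!
Transfer to finite abelian groups.
-/

namespace Pool.Agent.Helper49.MC

open Finset Pointwise

variable {G : Type*} [AddCommGroup G]

/-- `C` is a minimal complement in `G`: there is `W` with `W + C = G` and `W + C' ≠ G` for every
proper subset `C'` of `C`. -/
def IsMinCompl (C : Set G) : Prop :=
  ∃ W : Set G, W + C = Set.univ ∧ ∀ C' : Set G, C' ⊂ C → W + C' ≠ Set.univ

/-- uniquely covered points of `G` -/
def UniqG (W C : Set G) (g : G) : Prop := ∃! w, w ∈ W ∧ g - w ∈ C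

lemma exists_uniq {W C : Set G} (h1 : W + C = Set.univ)
    (h2 : ∀ C' : Set G, C' ⊂ C → W + C' ≠ Set.univ) (c : G) (hc : c ∈ C) :
    ∃ g : G, UniqG W C g ∧ g - c ∈ W ∧ ∀ w ∈ W, g - w ∈ C → g - w = c := by
  have hss : C \ {c} ⊂ C := by
    rw [Set.ssubset_iff_of_subset Set.sdiff_subset]
    exact ⟨c, hc, by simp⟩
  have h3 := h2 _ hss
  rw [Set.ne_univ_iff_exists_notMem] at h3
  obtain ⟨g, hg⟩ := h3
  have hall : ∀ w ∈ W, g - w ∈ C → g - w = c := by
    intro w hw hgw
    by_contra hcon
    apply hg
    rw [Set.mem_add]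
    exact ⟨w, hw, g - w, ⟨hgw, by simpa using hcon⟩, by abel⟩
  have hgC : g ∈ W + C := by rw [h1]; trivial
  rw [Set.mem_add] at hgC
  obtain ⟨w, hw, c', hc', hsum⟩ := hgC
  have hgw : g - w = c' := by rw [← hsum]; abel
  have hc'c : c' = c := by
    rw [← hgw]
    exact hall w hw (by rw [hgw]; exact hc')
  subst hc'c
  refine ⟨g, ⟨w, ⟨hw, by rw [hgw]; exact hc'⟩, ?_⟩, ?_, hall⟩
  · rintro w' ⟨hw', hgw'⟩
    have := hall w' hw' hgw'
    have h5 : g - w' = g - w := by rw [this, hgw]
    simpa using h5
  · have : g - c' = w := by rw [← hgw]; abel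
    rw [this]
    exact hw

open Classical in
lemma card_le_uniq [Fintype G] {W : Set G} {C : Finset G} (h1 : W + (C : Set G) = Set.univ)
    (h2 : ∀ C' : Set G, C' ⊂ (C : Set G) → W + C' ≠ Set.univ) :
    C.card ≤ (Finset.univ.filter (fun g => UniqG W (C : Set G) g)).card := by
  have hex : ∀ c : G, ∃ g : G, c ∈ C → (UniqG W (C : Set G) g ∧ g - c ∈ W ∧
      ∀ w ∈ W, g - w ∈ (C : Set G) → g - w = c) := by
    intro c
    by_cases hc : c ∈ C
    · obtain ⟨g, hg⟩ := exists_uniq h1 h2 c (by exact_mod_cast hc)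
      exact ⟨g, fun _ => hg⟩
    · exact ⟨0, fun h => absurd h hc⟩
  choose f hf using hex
  apply Finset.card_le_card_of_injOn f
  · intro c hc
    have := (hf c hc).1
    simpa using this
  · intro c hc c' hc' heq
    have a1 := hf c hc
    have a2 := hf c' hc'
    have h3 : f c - (f c - c') ∈ (C : Set G) := by
      have : f c - (f c - c') = c' := by abel
      rw [this]; exact hc'
    have h4 : f c - c' ∈ W := by rw [heq]; exact a2.2.1
    have h5 := a1.2.2 _ h4 h3
    have h6 : f c - (f c - c') = c' := by abel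
    rw [h6] at h5
    exact h5.symm

section
variable (H : AddSubgroup G) (x : G)

/-- the map `(i, h) ↦ i x + h` -/
def phi (p : ℤ × H) : G := p.1 • x + (p.2 : G)

lemma phi_sub (p q : ℤ × H) : phi H x (p - q) = phi H x p - phi H x q := by
  unfold phi
  simp only [Prod.fst_sub, Prod.snd_sub, AddSubgroup.coe_sub, sub_smul]
  abel

lemma phi_inj [Fintype H] {l : ℕ} (hx : ∀ i : ℕ, 0 < i → i < l → i • x ∉ H) (p q : ℤ × H)
    (hp : p ∈ slab H 0 l) (hq : q ∈ slab H 0 l) (h : phi H x p = phi H x q) : p = q := by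
  wlog hle : p.1 ≤ q.1 generalizing p q
  · exact (this q p hq hp h.symm (by omega)).symm
  rw [mem_slab] at hp hq
  have h1 : (q.1 - p.1) • x = (p.2 : G) - (q.2 : G) := by
    unfold phi at h
    rw [sub_smul, sub_eq_sub_iff_add_eq_add, ← h]
    abel
  have hmem : (q.1 - p.1) • x ∈ H := by
    rw [h1]
    exact H.sub_mem p.2.2 q.2.2
  have heq : p.1 = q.1 := by
    by_contra hne
    obtain ⟨k, hk⟩ := Int.eq_ofNat_of_zero_le (show (0 : ℤ) ≤ q.1 - p.1 by omega)
    rw [hk] at hmem
    rw [natCast_zsmul] at hmem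
    exact hx k (by omega) (by omega) hmem
  have h2 : (p.2 : G) = q.2 := by
    unfold phi at h
    rw [heq] at h
    simpa using h
  exact Prod.ext heq (Subtype.ext h2)

open Classical in
theorem transfer [Fintype G] {l s u : ℕ} (hs : 1 ≤ s)
    (hx : ∀ i : ℕ, 0 < i → i < l → i • x ∉ H) (C : Finset (ℤ × H)) (hC : C ⊆ slab H 0 l)
    (hG : Good H l s u C) (hmc : IsMinCompl ((C.image (phi H x) : Finset G) : Set G)) :
    (l * Fintype.card H) * C.card ≤ Fintype.card G * ((2 * s + 1) * u) := by
  obtain ⟨W, h1, h2⟩ := hmc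
  set CG : Finset G := C.image (phi H x) with hCG
  have hcardC : CG.card = C.card := by
    rw [hCG]
    apply Finset.card_image_of_injOn
    intro p hp q hq h
    exact phi_inj H x hx p q (hC hp) (hC hq) h
  have hU := card_le_uniq h1 h2
  rw [hcardC] at hU
  -- blocks
  have hblock : ∀ y : G, ((slab H 0 l).filter (fun p => UniqG W (CG : Set G) (y + phi H x p))).card
      ≤ (2 * s + 1) * u := by
    intro y
    set Wy : Set (ℤ × H) := {p | y + phi H x p ∈ W} with hWy
    have hcov : ∀ p : ℤ × H, ∃ q ∈ Wy, p - q ∈ C := by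
      intro p
      have : y + phi H x p ∈ W + (CG : Set G) := by rw [h1]; trivial
      rw [Set.mem_add] at this
      obtain ⟨w, hw, c, hc, hsum⟩ := this
      rw [hCG, Finset.coe_image, Set.mem_image] at hc
      obtain ⟨c', hc', rfl⟩ := hc
      refine ⟨p - c', ?_, by simpa using hc'⟩
      rw [hWy, Set.mem_ofPred_eq, phi_sub]
      have : y + (phi H x p - phi H x c') = w := by
        rw [← add_sub_assoc, ← hsum]
        abel
      rw [this]
      exact hw
    have hb := block_bound hG hs hC Wy hcov 0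
    rw [zero_add] at hb
    refine le_trans (Finset.card_le_card ?_) hb
    intro p hp
    rw [Finset.mem_filter] at hp ⊢
    refine ⟨hp.1, ?_⟩
    obtain ⟨q, hq, hqC⟩ := hcov p
    refine ⟨q, ⟨hq, hqC⟩, ?_⟩
    rintro q' ⟨hq', hqC'⟩
    obtain ⟨w, _, hw⟩ := hp.2
    have e1 := hw (y + phi H x q) ⟨hq, by
      have : y + phi H x p - (y + phi H x q) = phi H x (p - q) := by rw [phi_sub]; abel
      rw [this, hCG, Finset.coe_image]
      exact Set.mem_image_of_mem _ (by exact_mod_cast hqC)⟩
    have e2 := hw (y + phi H x q') ⟨hq', by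
      have : y + phi H x p - (y + phi H x q') = phi H x (p - q') := by rw [phi_sub]; abel
      rw [this, hCG, Finset.coe_image]
      exact Set.mem_image_of_mem _ (by exact_mod_cast hqC')⟩
    have e3 : phi H x (p - q') = phi H x (p - q) := by
      rw [phi_sub, phi_sub]
      have : y + phi H x q = y + phi H x q' := by rw [e1, e2]
      have := add_left_cancel this
      rw [this]
    have e4 := phi_inj H x hx _ _ (hC hqC') (hC hqC) e3
    simpa using e4
  -- double counting
  set U := Finset.univ.filter (fun g => UniqG W (CG : Set G) g) with hUdef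
  have hdc : ∑ y : G, ((slab H 0 l).filter (fun p => UniqG W (CG : Set G) (y + phi H x p))).card
      = (slab H 0 l).card * U.card := by
    simp only [Finset.card_filter]
    rw [Finset.sum_comm]
    have : ∀ p ∈ slab H 0 l, (∑ y : G, if UniqG W (CG : Set G) (y + phi H x p) then 1 else 0)
        = U.card := by
      intro p _
      rw [hUdef, Finset.card_filter]
      refine Fintype.sum_equiv (Equiv.addRight (phi H x p)) _ _ (fun y => ?_)
      have : (Equiv.addRight (phi H x p)) y = y + phi H x p := rfl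
      rw [this]
    rw [Finset.sum_congr rfl this, Finset.sum_const, smul_eq_mul]
  have hsum : ∑ y : G, ((slab H 0 l).filter (fun p => UniqG W (CG : Set G) (y + phi H x p))).card
      ≤ Fintype.card G * ((2 * s + 1) * u) := by
    refine (Finset.sum_le_sum (fun y _ => hblock y)).trans ?_
    rw [Finset.sum_const, smul_eq_mul, Finset.card_univ]
  rw [hdc, card_slab] at hsum
  have h3 : ((l : ℤ) - 0).toNat = l := by simp
  rw [h3] at hsum
  exact (Nat.mul_le_mul_left _ hU).trans hsum

end

/-- a subgroup `H` and an element `x` such that `[0,l)·x + H` has about `N` elements -/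
lemma exists_structure [Fintype G] (N : ℕ) (hN1 : 1 ≤ N) (hN : N < Fintype.card G) :
    ∃ (H : AddSubgroup G) (x : G) (l : ℕ), 1 ≤ l ∧ l * Nat.card H ≤ N ∧ N < 2 * (l * Nat.card H) ∧
      ∀ i : ℕ, 0 < i → i < l → i • x ∉ H := by
  classical
  have hfin : (Set.univ : Set (AddSubgroup G)).Finite := Set.finite_univ
  set S : Set (AddSubgroup G) := {H | Nat.card H ≤ N} with hS
  have hSne : S.Nonempty := ⟨⊥, by simp [hS, hN1]⟩
  obtain ⟨H, hH, hmax⟩ := Set.exists_max_image S (fun H => Nat.card H) (Set.toFinite S) hSne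
  have hHtop : H ≠ ⊤ := by
    rintro rfl
    rw [hS, Set.mem_ofPred_eq] at hH
    have : Nat.card (⊤ : AddSubgroup G) = Fintype.card G := by
      rw [AddSubgroup.card_top, Nat.card_eq_fintype_card]
    omega
  obtain ⟨x, hx⟩ : ∃ x : G, x ∉ H := by
    by_contra hcon
    push Not at hcon
    exact hHtop (by rw [AddSubgroup.eq_top_iff']; exact hcon)
  have hHpos : 0 < Nat.card H := Nat.card_pos
  have hHN : Nat.card H ≤ N := hH
  refine ⟨H, x, N / Nat.card H, ?_, ?_, ?_, ?_⟩
  · exact (Nat.one_le_div_iff hHpos).mpr hHN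
  · exact Nat.div_mul_le_self _ _
  · have h1 := Nat.div_add_mod N (Nat.card H)
    have h2 := Nat.mod_lt N hHpos
    have h3 : 1 ≤ N / Nat.card H := (Nat.one_le_div_iff hHpos).mpr hHN
    have h4 : Nat.card H * 1 ≤ Nat.card H * (N / Nat.card H) := Nat.mul_le_mul_left _ h3
    have h5 : N / Nat.card H * Nat.card H = Nat.card H * (N / Nat.card H) := mul_comm _ _
    omega
  · intro i hi0 hil hmem
    set H' := H ⊔ AddSubgroup.zmultiples x with hH'
    have hlt : H < H' := by
      refine lt_of_le_of_ne le_sup_left ?_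
      intro heq
      apply hx
      rw [heq, hH']
      exact (le_sup_right : AddSubgroup.zmultiples x ≤ _) (AddSubgroup.mem_zmultiples x)
    -- card of H' is at most i * card H
    have hsub : (H' : Set G) ⊆ (fun p : ℕ × G => p.1 • x + p.2) '' ((Finset.range i : Set ℕ) ×ˢ (H : Set G)) := by
      intro g hg
      have hg' : g ∈ H' := hg
      rw [hH', AddSubgroup.mem_sup] at hg'
      obtain ⟨h, hh, z, hz, rfl⟩ := hg'
      rw [AddSubgroup.mem_zmultiples_iff] at hz
      obtain ⟨k, rfl⟩ := hz
      refine ⟨((k % i).toNat, h + (k / i) • (i • x)), ?_, ?_⟩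
      · rw [Set.mem_prod]
        constructor
        · have h1 : k % (i : ℤ) < i := Int.emod_lt_of_pos _ (by exact_mod_cast hi0)
          have h2 : 0 ≤ k % (i : ℤ) := Int.emod_nonneg _ (by omega)
          simp only [Finset.coe_range, Set.mem_Iio]
          omega
        · exact H.add_mem hh (H.zsmul_mem hmem _)
      · simp only
        have h2 : 0 ≤ k % (i : ℤ) := Int.emod_nonneg _ (by omega)
        have h3 : ((k % (i : ℤ)).toNat : ℤ) = k % i := Int.toNat_of_nonneg h2
        have h4 : (k % (i : ℤ)).toNat • x = (k % (i : ℤ)) • x := by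
          rw [← natCast_zsmul, h3]
        rw [h4, ← natCast_zsmul x i, smul_smul]
        have h5 : k = k % (i : ℤ) + k / (i : ℤ) * i := by
          rw [mul_comm]; exact (Int.emod_add_mul_ediv k i).symm
        calc (k % (i : ℤ)) • x + (h + (k / (i : ℤ) * (i : ℤ)) • x)
            = h + ((k % (i : ℤ)) • x + (k / (i : ℤ) * (i : ℤ)) • x) := by abel
          _ = h + (k % (i : ℤ) + k / (i : ℤ) * i) • x := by rw [add_smul]
          _ = h + k • x := by rw [← h5]
    have hcard : Nat.card H' ≤ i * Nat.card H := by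
      have h1 : Nat.card H' = (H' : Set G).ncard := rfl
      have h2 : Nat.card H = (H : Set G).ncard := rfl
      rw [h1, h2]
      calc (H' : Set G).ncard ≤ ((fun p : ℕ × G => p.1 • x + p.2) ''
            ((Finset.range i : Set ℕ) ×ˢ (H : Set G))).ncard :=
            Set.ncard_le_ncard hsub (Set.toFinite _)
        _ ≤ ((Finset.range i : Set ℕ) ×ˢ (H : Set G)).ncard :=
            Set.ncard_image_le (Set.Finite.prod (Finset.finite_toSet _) (Set.toFinite _))
        _ = i * (H : Set G).ncard := by
            rw [Set.ncard_prod, Set.ncard_coe_finset, Finset.card_range]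
    have hH'S : H' ∈ S := by
      rw [hS, Set.mem_ofPred_eq]
      have : i * Nat.card H ≤ N / Nat.card H * Nat.card H := Nat.mul_le_mul_right _ hil.le
      have h2 := Nat.div_mul_le_self N (Nat.card H)
      omega
    have h3 := hmax H' hH'S
    have h4 : Nat.card H < Nat.card H' := by
      have : (H : Set G) ⊂ (H' : Set G) := by exact_mod_cast hlt
      exact Set.ncard_lt_ncard this (Set.toFinite _)
    have h5 : Nat.card H' ≤ Nat.card H := h3
    omega

end Pool.Agent.Helper49.MC
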